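import Mathlib

/-!
Definitions for MP_a78b9e_ag: smooth orbifold pairs `(ℙⁿ, D)`, orbifold rational curves, uniruledness
and pseudo-effectivity of `K + D`.
-/

namespace Pool.Agent.Lib.MP_a78b9e_ag

open MvPolynomial
open scoped LinearAlgebra.Projectivization ENNReal

/-- Complex projective space `ℙⁿ(ℂ)`: lines in `ℂⁿ⁺¹`. -/
abbrev PSpace (n : ℕ) : Type := ℙ ℂ (Fin (n + 1) → ℂ)

/-- The complex projective line `ℙ¹(ℂ)`: lines in `ℂ²`. -/
abbrev PLine : Type := ℙ ℂ (Fin 2 → ℂ)

/-- The polynomial `A` vanishes at the point `x` of `ℙⁿ` (used for homogeneous `A` only, for which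
this does not depend on the chosen representative of `x`). -/
def VanishesAt {n : ℕ} (A : MvPolynomial (Fin (n + 1)) ℂ) (x : PSpace n) : Prop :=
  eval x.rep A = 0

/-- A subset of `ℙⁿ` is Zariski open if it is the complement of the common zero set of a set of
homogeneous polynomials. -/
def IsZariskiOpen {n : ℕ} (U : Set (PSpace n)) : Prop :=
  ∃ S : Set (MvPolynomial (Fin (n + 1)) ℂ), (∀ A ∈ S, ∃ m, A.IsHomogeneous m) ∧
    U = {x | ∃ A ∈ S, ¬ VanishesAt A x}

/-- A smooth orbifold pair `(ℙⁿ, D)`, `D = ∑ c_j D_j`.  The `D_j` are finitely many distinct prime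
divisors, i.e. zero loci of pairwise non-associated irreducible homogeneous polynomials
`eqn j` of degree `degree j`; their union has simple normal crossings (at every point, the gradients
of the equations vanishing there are linearly independent); the coefficients `c_j` are rational
and lie in `(0, 1]`. -/
structure OrbifoldPair (n : ℕ) where
  /-- the index set `J` -/
  J : Type
  /-- `J` is finite -/
  fintypeJ : Fintype J
  /-- the equation of `D_j` -/
  eqn : J → MvPolynomial (Fin (n + 1)) ℂ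
  /-- the degree of `D_j` -/
  degree : J → ℕ
  homog : ∀ j, (eqn j).IsHomogeneous (degree j)
  irred : ∀ j, Irreducible (eqn j)
  distinct : ∀ i j, i ≠ j → ¬ Associated (eqn i) (eqn j)
  snc : ∀ x : Fin (n + 1) → ℂ, x ≠ 0 →
    LinearIndependent ℂ
      (fun (j : {j : J // eval x (eqn j) = 0}) (i : Fin (n + 1)) => eval x (pderiv i (eqn j.1)))
  /-- the coefficient `c_j` -/
  coeff : J → ℚ
  coeff_pos : ∀ j, 0 < coeff j
  coeff_le_one : ∀ j, coeff j ≤ 1

attribute [instance] OrbifoldPair.fintypeJ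

/-- The multiplicity `m ∈ [1, ∞]` attached to a coefficient `c ∈ [0, 1]` by `c = 1 - 1 / m`,
i.e. `m = 1 / (1 - c)`, with `m = ∞` for `c = 1`. -/
noncomputable def mult (c : ℚ) : ℝ≥0∞ := (ENNReal.ofReal (1 - (c : ℝ)))⁻¹

/-- A non-constant morphism `f : ℙ¹ → ℙⁿ` over `ℂ`: it is given by `n + 1` binary forms of the same
degree `degree ≥ 1` without common zero. -/
structure RationalCurve (n : ℕ) where
  /-- the degree of the forms -/
  degree : ℕ
  degree_pos : 0 < degree
  /-- the binary forms -/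
  form : Fin (n + 1) → MvPolynomial (Fin 2) ℂ
  homog : ∀ i, (form i).IsHomogeneous degree
  no_common_zero : ∀ v : Fin 2 → ℂ, v ≠ 0 → ∃ i, eval v (form i) ≠ 0

/-- The map `ℙ¹ → ℙⁿ` on points. -/
noncomputable def RationalCurve.toFun {n : ℕ} (f : RationalCurve n) (a : PLine) : PSpace n :=
  Projectivization.mk ℂ (fun i => eval a.rep (f.form i)) (by
    obtain ⟨i, hi⟩ := f.no_common_zero a.rep a.rep_nonzero
    exact fun h => hi (congrFun h i))

/-- The linear form `v₁ s - v₀ t` on `ℂ²`, whose only zero in `ℙ¹` is the point `[v₀ : v₁]`. -/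
noncomputable def linForm {L : Type*} [Field L] (v : Fin 2 → L) : MvPolynomial (Fin 2) L :=
  C (v 1) * X 0 - C (v 0) * X 1

/-- The order of contact `t_a` at `a ∈ ℙ¹` of `f : ℙ¹ → ℙⁿ` with the hypersurface `A = 0`, i.e. the
coefficient of `a` in `f^* (A = 0)`: the order of vanishing at `a` of the binary form
`A (f₀, …, f_n)`. -/
noncomputable def RationalCurve.contact {n : ℕ} (f : RationalCurve n)
    (A : MvPolynomial (Fin (n + 1)) ℂ) (a : PLine) : ℕ∞ :=
  emultiplicity (linForm a.rep) (aeval f.form A)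

/-- `f` is an orbifold morphism `(ℙ¹, D_C) → (ℙⁿ, D)`, where `D_C = ∑ c'_a a` is a divisor on `ℙ¹`
with rational coefficients in `[0, 1]`:
(1) `f` is birational onto its image (i.e. injective outside a finite set);
(2) the image of `f` is not contained in the support of `D`;
(3) if `f(a) ∈ D_j` then `m_j ≤ t_{a,j} m_a(D_C)`. -/
structure IsOrbifoldMorphism {n : ℕ} (P : OrbifoldPair n) (f : RationalCurve n)
    (DC : PLine →₀ ℚ) : Prop where
  coeff_nonneg : ∀ a, 0 ≤ DC a
  coeff_le_one : ∀ a, DC a ≤ 1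
  birational : ∃ S : Set PLine, S.Finite ∧ Set.InjOn f.toFun Sᶜ
  not_subset : ∃ a, ∀ j, ¬ VanishesAt (P.eqn j) (f.toFun a)
  mult_le : ∀ a j, VanishesAt (P.eqn j) (f.toFun a) →
    mult (P.coeff j) ≤ (f.contact (P.eqn j) a : ℝ≥0∞) * mult (DC a)

/-- An (irreducible) orbifold rational curve of `(ℙⁿ, D)` passes through the point `x`: there is an
orbifold morphism `f : (ℙ¹, D_C) → (ℙⁿ, D)` with `deg (K_{ℙ¹} + D_C) < 0` and `x ∈ f(ℙ¹)`. -/
def OrbifoldPair.HasOrbifoldRationalCurveThrough {n : ℕ} (P : OrbifoldPair n) (x : PSpace n) :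
    Prop :=
  ∃ (f : RationalCurve n) (DC : PLine →₀ ℚ), IsOrbifoldMorphism P f DC ∧
    -2 + (DC.sum fun _ c => c) < 0 ∧ ∃ a, f.toFun a = x

/-- `(ℙⁿ, D)` is uniruled: an irreducible orbifold rational curve passes through a general point,
i.e. through every point of some non-empty Zariski open subset. -/
def OrbifoldPair.IsUniruled {n : ℕ} (P : OrbifoldPair n) : Prop :=
  ∃ U : Set (PSpace n), IsZariskiOpen U ∧ U.Nonempty ∧
    ∀ x ∈ U, P.HasOrbifoldRationalCurveThrough x

/-- The degrees of the effective `ℚ`-divisors `∑ a_i E_i` on `ℙⁿ` (`a_i ∈ ℚ`, `a_i ≥ 0`, `E_i` the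
prime divisor with irreducible homogeneous equation `E i` of degree `m i`). -/
def effectiveDegrees (n : ℕ) : Set ℝ :=
  {q | ∃ (k : ℕ) (E : Fin k → MvPolynomial (Fin (n + 1)) ℂ) (m : Fin k → ℕ) (a : Fin k → ℚ),
    (∀ i, (E i).IsHomogeneous (m i) ∧ Irreducible (E i) ∧ 0 ≤ a i) ∧
    q = ∑ i, (a i : ℝ) * (m i : ℝ)}

/-- The degree of the `ℚ`-divisor `K_{ℙⁿ} + D`; recall that `K_{ℙⁿ}` has degree `-(n + 1)`. -/
noncomputable def OrbifoldPair.logCanonicalDegree {n : ℕ} (P : OrbifoldPair n) : ℝ :=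
  -((n : ℝ) + 1) + ∑ j, (P.coeff j : ℝ) * (P.degree j : ℝ)

/-- `K_{ℙⁿ} + D` is pseudo-effective.  Numerical classes of (real) divisors on `ℙⁿ` are identified
with real numbers by the degree, so this says that the degree of `K_{ℙⁿ} + D` is in the closure of
the set of degrees of effective `ℚ`-divisors. -/
def OrbifoldPair.IsPseudoEffective {n : ℕ} (P : OrbifoldPair n) : Prop :=
  P.logCanonicalDegree ∈ closure (effectiveDegrees n)

/-- `D = c B` for one prime divisor `B` of degree `d` (which is then a smooth hypersurface, by the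
normal crossings condition). -/
def OrbifoldPair.IsSingle {n : ℕ} (P : OrbifoldPair n) (d : ℕ) (c : ℚ) : Prop :=
  ∃ j₀ : P.J, (∀ j, j = j₀) ∧ P.degree j₀ = d ∧ P.coeff j₀ = c

end Pool.Agent.Lib.MP_a78b9e_ag
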