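import Pool.Agent.Lib.MP_a78b9e_ag.Defs

/-!
# Orbifold uniruledness and pseudo-effectivity of `K_X + D`: counterexamples on projective spaces

We disprove the implication: `K_X + D` not pseudo-effective implies that the smooth orbifold pair
`(X, D)` is uniruled (by orbifold rational curves).  The counterexamples are `X = ℙⁿ`, `D = c B`
with `B` any smooth hypersurface of degree `d`, and `c = 1 - 1 / m`, where `m` is rational (and not
an integer) and, for some integer `q ≥ 1`, with `D := d - n - 1 > 0`,
`q (D + 2) < d < (q + 1) D` and `q X / (X - 2) ≤ m < d / D`, `X := (q + 1) (D + 2) - d`.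
For `q = 1` this is: any `n ≥ 2`, any `d ≥ 2 n + 3`, and `2 / (d - 2 n + 2) ≤ c < (n + 1) / d`; for
instance `ℙ²`, a smooth curve `B` of degree `7`, and `c = 2 / 5`, `m = 5 / 3`.

Idea of the proof.  Let `f : ℙ¹ → ℙⁿ` have degree `e` and pass through a very general point `p`.
Derivations `δ_j` of `ℂ` (killing the coefficients of the equation `G` of `B`), with prescribed
values on the coordinates of `p`, applied to the coefficients of `f`, give `n` vectors such that for
some choice of `n - 1` of them `Δ = det (∂_s f, ∂_t f, δ_j f) ≠ 0`.  This is a form of degree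
`(n + 1) e - 2`, and it vanishes to order at least `t_a - 1` at each point `a`, where `t_a` is the
order of contact of `f` with `B`.  Hence `∑ (t_a - 1) ≤ (n + 1) e - 2` while `∑ t_a = d e`.  An
orbifold structure `D_C` making `f` an orbifold morphism has coefficient at least `1 - t_a / m` at
`a`, which is at least `(1 - q / m) (q + 1 - t_a)` for integers `t_a` since `q < m < q + 1`.
Summing, `deg D_C ≥ (1 - q / m) ((q + 1) (D + 2) - d) ≥ 2`.
-/

namespace Pool.Agent.Lib.MP_a78b9e_ag

open MvPolynomial
open scoped LinearAlgebra.Projectivization ENNReal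

/-! ## Derivations -/

open scoped IntermediateField.algebraAdjoinAdjoin in
theorem exists_derivation_basis {K L ι : Type*} [Field K] [Field L] [CharZero K] [Algebra K L]
    (x : ι → L) (hx : IsTranscendenceBasis K x) (y : ι → L) :
    ∃ δ : Derivation K L L, ∀ i, δ (x i) = y i := by
  classical
  let : Algebra (MvPolynomial ι K) L := (aeval x : MvPolynomial ι K →ₐ[K] L).toAlgebra
  have : IsScalarTower K (MvPolynomial ι K) L := IsScalarTower.of_algHom _
  -- formally etale
  have h1 : Algebra.FormallyEtale (MvPolynomial ι K) L := by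
    let e := hx.1.aevalEquiv
    let : Algebra (MvPolynomial ι K) (Algebra.adjoin K (Set.range x)) :=
      e.toAlgHom.toAlgebra
    have : Algebra.FormallyEtale (MvPolynomial ι K) (Algebra.adjoin K (Set.range x)) := by
      let e' : MvPolynomial ι K ≃ₐ[MvPolynomial ι K] (Algebra.adjoin K (Set.range x)) :=
        AlgEquiv.ofRingEquiv (f := e.toRingEquiv) (fun _ => rfl)
      exact Algebra.FormallyEtale.of_equiv e'
    have : Algebra.FormallyEtale (Algebra.adjoin K (Set.range x))
      (IntermediateField.adjoin K (Set.range x)) :=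
      Algebra.FormallyEtale.of_isLocalization (nonZeroDivisors _)
    have := hx.isAlgebraic_field
    have : CharZero (IntermediateField.adjoin K (Set.range x)) := inferInstance
    have : Algebra.IsSeparable (IntermediateField.adjoin K (Set.range x)) L := inferInstance
    have : Algebra.FormallyEtale (IntermediateField.adjoin K (Set.range x)) L :=
      Algebra.FormallyEtale.of_isSeparable _ L
    have : Algebra.FormallyEtale (Algebra.adjoin K (Set.range x)) L :=
      Algebra.FormallyEtale.comp _ (IntermediateField.adjoin K (Set.range x)) _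
    have : IsScalarTower (MvPolynomial ι K) (Algebra.adjoin K (Set.range x)) L := by
      refine IsScalarTower.of_algebraMap_eq fun p => ?_
      change aeval x p = ((e p : Algebra.adjoin K (Set.range x)) : L)
      simp [e]
    exact Algebra.FormallyEtale.comp _ (Algebra.adjoin K (Set.range x)) _
  let D0 : Derivation K (MvPolynomial ι K) L := mkDerivation K y
  let φ : TensorProduct (MvPolynomial ι K) L (Ω[MvPolynomial ι K⁄K]) →ₗ[L] L :=
    LinearMap.liftBaseChange L D0.liftKaehlerDifferential
  let ψ := (KaehlerDifferential.tensorKaehlerEquivOfFormallyEtale K (MvPolynomial ι K) L)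
  let χ : Ω[L⁄K] →ₗ[L] L := φ ∘ₗ ψ.symm.toLinearMap
  refine ⟨χ.compDer (KaehlerDifferential.D K L), fun i => ?_⟩
  have : x i = algebraMap (MvPolynomial ι K) L (X i) := by
    change x i = aeval x (X i)
    simp
  rw [this]
  change φ ((KaehlerDifferential.tensorKaehlerEquivOfFormallyEtale K (MvPolynomial ι K) L).symm
    (KaehlerDifferential.D K L (algebraMap (MvPolynomial ι K) L (X i)))) = y i
  rw [KaehlerDifferential.tensorKaehlerEquivOfFormallyEtale_symm_D_algebraMap]
  simp [φ, D0]

theorem exists_derivation {K L ι : Type*} [Field K] [Field L] [CharZero K] [Algebra K L]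
    (x : ι → L) (hx : AlgebraicIndependent K x) (y : ι → L) :
    ∃ δ : Derivation K L L, ∀ i, δ (x i) = y i := by
  classical
  obtain ⟨t, ht, htb⟩ := exists_isTranscendenceBasis_superset
    (R := K) (s := Set.range x) hx.to_subtype_range
  have hinj : Function.Injective x := hx.injective
  let y' : t → L := fun a => if h : ∃ i, x i = a then y h.choose else 0
  obtain ⟨δ, hδ⟩ := exists_derivation_basis ((↑) : t → L) htb y'
  refine ⟨δ, fun i => ?_⟩
  have := hδ ⟨x i, ht ⟨i, rfl⟩⟩
  simp only at this
  rw [this]
  have h : ∃ j, x j = x i := ⟨i, rfl⟩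
  simp only [y']
  rw [dif_pos h]
  congr 1
  exact hinj h.choose_spec


/-- extension of a derivation of the coefficient field to polynomials, with prescribed values on the variables -/
theorem exists_polyDerivation {K L σ : Type*} [Field K] [Field L] [Algebra K L]
    (δ : Derivation K L L) (w : σ → MvPolynomial σ L) :
    ∃ D : Derivation K (MvPolynomial σ L) (MvPolynomial σ L),
      (∀ a, D (C a) = C (δ a)) ∧ (∀ i, D (X i) = w i) := by
  classical
  let g : L →+* TrivSqZeroExt (MvPolynomial σ L) (MvPolynomial σ L) :=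
    { toFun := fun a => TrivSqZeroExt.inl (C a) + TrivSqZeroExt.inr (C (δ a))
      map_one' := by simp
      map_zero' := by simp
      map_add' := by
        intro a b
        apply TrivSqZeroExt.ext
        · simp only [map_add, TrivSqZeroExt.fst_add, TrivSqZeroExt.fst_inl, TrivSqZeroExt.fst_inr,
            add_zero]
        · simp only [map_add, TrivSqZeroExt.snd_add, TrivSqZeroExt.snd_inl, TrivSqZeroExt.snd_inr,
            zero_add]
      map_mul' := by
        intro a b
        apply TrivSqZeroExt.ext
        · simp only [map_mul, TrivSqZeroExt.fst_add, TrivSqZeroExt.fst_inl, TrivSqZeroExt.fst_inr,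
            add_zero, TrivSqZeroExt.fst_mul]
        · simp only [TrivSqZeroExt.snd_add, TrivSqZeroExt.snd_inl, TrivSqZeroExt.snd_inr,
            zero_add, TrivSqZeroExt.snd_mul, Derivation.leibniz, TrivSqZeroExt.fst_add,
            TrivSqZeroExt.fst_inl, TrivSqZeroExt.fst_inr, add_zero, smul_eq_mul, map_add, map_mul,
            MulOpposite.smul_eq_mul_unop, MulOpposite.unop_op]
          ring }
  let φ : MvPolynomial σ L →+* TrivSqZeroExt (MvPolynomial σ L) (MvPolynomial σ L) :=
    eval₂Hom g (fun i => TrivSqZeroExt.inl (X i) + TrivSqZeroExt.inr (w i))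
  have hC : ∀ a, φ (C a) = TrivSqZeroExt.inl (C a) + TrivSqZeroExt.inr (C (δ a)) := by
    intro a
    simp only [φ, coe_eval₂Hom, eval₂_C]
    rfl
  have hX : ∀ i, φ (X i) = TrivSqZeroExt.inl (X i) + TrivSqZeroExt.inr (w i) := by
    intro i
    simp only [φ, coe_eval₂Hom, eval₂_X]
  have hfst : ∀ p, (φ p).fst = p := by
    intro p
    have : ((TrivSqZeroExt.fstHom (MvPolynomial σ L) (MvPolynomial σ L)
        (MvPolynomial σ L)).toRingHom.comp φ) = RingHom.id (MvPolynomial σ L) := by
      apply MvPolynomial.ringHom_ext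
      · intro a
        change (φ (C a)).fst = C a
        rw [hC]
        simp only [TrivSqZeroExt.fst_add, TrivSqZeroExt.fst_inl, TrivSqZeroExt.fst_inr, add_zero]
      · intro i
        change (φ (X i)).fst = X i
        rw [hX]
        simp only [TrivSqZeroExt.fst_add, TrivSqZeroExt.fst_inl, TrivSqZeroExt.fst_inr, add_zero]
    exact congrArg (fun h : MvPolynomial σ L →+* MvPolynomial σ L => h p) this
  let D : Derivation K (MvPolynomial σ L) (MvPolynomial σ L) := Derivation.mk'
    { toFun := fun p => (φ p).snd
      map_add' := by intro p q; simp only [map_add, TrivSqZeroExt.snd_add]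
      map_smul' := by
        intro a p
        have h1 : a • p = C (algebraMap K L a) * p := by
          rw [← MvPolynomial.smul_eq_C_mul, algebraMap_smul]
        simp only [RingHom.id_apply]
        rw [h1, map_mul, hC]
        simp only [TrivSqZeroExt.snd_mul, TrivSqZeroExt.snd_add, TrivSqZeroExt.fst_add,
          TrivSqZeroExt.fst_inl, TrivSqZeroExt.fst_inr, TrivSqZeroExt.snd_inl,
          TrivSqZeroExt.snd_inr, Derivation.map_algebraMap, map_zero, add_zero, smul_zero,
          smul_eq_mul]
        rw [← MvPolynomial.smul_eq_C_mul, algebraMap_smul] }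
    (by
      intro p q
      change (φ (p * q)).snd = p • (φ q).snd + q • (φ p).snd
      rw [map_mul]
      simp only [TrivSqZeroExt.snd_mul, hfst, smul_eq_mul, MulOpposite.smul_eq_mul_unop,
        MulOpposite.unop_op]
      ring)
  refine ⟨D, fun a => ?_, fun i => ?_⟩
  · change (φ (C a)).snd = _
    rw [hC]
    simp only [TrivSqZeroExt.snd_add, TrivSqZeroExt.snd_inl, TrivSqZeroExt.snd_inr, zero_add]
  · change (φ (X i)).snd = _
    rw [hX]
    simp only [TrivSqZeroExt.snd_add, TrivSqZeroExt.snd_inl, TrivSqZeroExt.snd_inr, zero_add]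


/-! ## Binary forms -/

variable {L : Type*} [Field L]

theorem eval_linForm (v w : Fin 2 → L) : eval w (linForm v) = v 1 * w 0 - v 0 * w 1 := by
  simp [linForm]

theorem linForm_homog (v : Fin 2 → L) : (linForm v).IsHomogeneous 1 := by
  unfold linForm
  apply IsHomogeneous.sub
  · simpa using (isHomogeneous_C (Fin 2) (v 1)).mul (isHomogeneous_X L (0 : Fin 2))
  · simpa using (isHomogeneous_C (Fin 2) (v 0)).mul (isHomogeneous_X L (1 : Fin 2))

theorem linForm_ne_zero {v : Fin 2 → L} (hv : v ≠ 0) : linForm v ≠ 0 := by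
  intro h
  apply hv
  have h0 : eval ![1, 0] (linForm v) = 0 := by rw [h]; simp
  have h1 : eval ![0, 1] (linForm v) = 0 := by rw [h]; simp
  rw [eval_linForm] at h0 h1
  funext i
  fin_cases i
  · simpa using h1
  · simpa using h0

theorem linForm_irreducible {v : Fin 2 → L} (hv : v ≠ 0) : Irreducible (linForm v) := by
  apply irreducible_of_totalDegree_eq_one
  · exact (linForm_homog v).totalDegree (linForm_ne_zero hv)
  · intro x hx
    rw [isUnit_iff_ne_zero]
    rintro rfl
    apply linForm_ne_zero hv
    ext m
    simpa using hx m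

theorem linForm_prime {v : Fin 2 → L} (hv : v ≠ 0) : Prime (linForm v) :=
  (linForm_irreducible hv).prime

/-- a form vanishing at `v` is divisible by the linear form of `v` -/
theorem linForm_dvd {H : MvPolynomial (Fin 2) L} {m : ℕ} (hH : H.IsHomogeneous m)
    {v : Fin 2 → L} (hv : v ≠ 0) (h0 : eval v H = 0) : linForm v ∣ H := by
  classical
  -- work modulo the linear form
  let I := Ideal.span {linForm v}
  let q := Ideal.Quotient.mk I
  have hq : q (C (v 1) * X 0) = q (C (v 0) * X 1) := by
    rw [Ideal.Quotient.eq]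
    exact Ideal.mem_span_singleton_self _
  have key : ∀ (k : Fin 2), v k ≠ 0 → linForm v ∣ H := by
    intro k hk
    -- H(v_k X) = v_k^m H(X)
    have e1 : aeval (fun i => C (v k) * X i) H = C (v k ^ m) * H := by
      have h2 : aeval (fun i => C (v k) * (X i : MvPolynomial (Fin 2) L)) H =
          C (v k ^ m) * aeval (fun i => (X i : MvPolynomial (Fin 2) L)) H := by
        rw [MvPolynomial.aeval_def, MvPolynomial.aeval_def, MvPolynomial.eval₂_eq,
          MvPolynomial.eval₂_eq, Finset.mul_sum]
        refine Finset.sum_congr rfl fun d hd => ?_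
        have hdm : ∑ i ∈ d.support, d i = m := by
          have := hH (mem_support_iff.mp hd)
          rw [Finsupp.weight_apply] at this
          simpa [Finsupp.sum] using this
        have : ∏ i ∈ d.support, (C (v k) * X i : MvPolynomial (Fin 2) L) ^ d i
            = C (v k ^ m) * ∏ i ∈ d.support, (X i : MvPolynomial (Fin 2) L) ^ d i := by
          rw [← hdm, ← Finset.prod_pow_eq_pow_sum, map_prod, ← Finset.prod_mul_distrib]
          refine Finset.prod_congr rfl fun i _ => ?_
          rw [mul_pow, map_pow]
        rw [this]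
        ring
      rw [h2]
      congr 1
      exact aeval_X_left_apply H
    -- modulo the form, v_k X_i = v_i X_k
    have e2 : ∀ i, q (C (v k) * X i) = q (C (v i) * X k) := by
      intro i
      fin_cases k <;> fin_cases i
      · rfl
      · exact hq.symm
      · exact hq
      · rfl
    have e3 : q (aeval (fun i => C (v k) * X i) H) =
        q (aeval (fun i => C (v i) * X k) H) := by
      have h1 : ∀ (f : Fin 2 → MvPolynomial (Fin 2) L),
          q (aeval f H) = eval₂ (q.comp C) (fun i => q (f i)) H := by
        intro f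
        rw [aeval_def, ← coe_eval₂Hom, ← coe_eval₂Hom]
        rw [← RingHom.comp_apply]
        congr 1
        apply MvPolynomial.ringHom_ext
        · intro a; simp
        · intro a; simp
      rw [h1, h1]
      congr 1
      funext i
      exact e2 i
    have e4 : aeval (fun i => C (v i) * X k) H = C (eval v H) * (X k : MvPolynomial (Fin 2) L) ^ m := by
      rw [MvPolynomial.aeval_def, MvPolynomial.eval₂_eq, MvPolynomial.eval_eq, map_sum,
        Finset.sum_mul]
      refine Finset.sum_congr rfl fun d hd => ?_
      have hdm : ∑ i ∈ d.support, d i = m := by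
        have := hH (mem_support_iff.mp hd)
        rw [Finsupp.weight_apply] at this
        simpa [Finsupp.sum] using this
      rw [← hdm, ← Finset.prod_pow_eq_pow_sum, map_mul, map_prod, mul_assoc,
        ← Finset.prod_mul_distrib]
      congr 1
      refine Finset.prod_congr rfl fun i _ => ?_
      rw [mul_pow, map_pow]
    rw [e1, e4, h0, map_zero, zero_mul, map_zero] at e3
    have h5 : linForm v ∣ C (v k ^ m) * H := by
      rw [← Ideal.mem_span_singleton]
      exact Ideal.Quotient.eq_zero_iff_mem.mp e3
    have hu : IsUnit (C (v k ^ m) : MvPolynomial (Fin 2) L) := by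
      apply IsUnit.map
      exact isUnit_iff_ne_zero.mpr (pow_ne_zero _ hk)
    exact (hu.dvd_mul_left).mp h5
  by_cases h : v 0 = 0
  · apply key 1
    intro h1
    apply hv
    funext i
    fin_cases i
    · exact h
    · exact h1
  · exact key 0 h

theorem eval_eq_zero_of_linForm_dvd {H : MvPolynomial (Fin 2) L} {v : Fin 2 → L}
    (h : linForm v ∣ H) : eval v H = 0 := by
  obtain ⟨q, rfl⟩ := h
  rw [map_mul, eval_linForm]
  ring


theorem eval_smul_of_homog {σ : Type*} {H : MvPolynomial σ L} {m : ℕ} (hH : H.IsHomogeneous m)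
    (c : L) (v : σ → L) : eval (c • v) H = c ^ m * eval v H := by
  classical
  rw [MvPolynomial.eval_eq, MvPolynomial.eval_eq, Finset.mul_sum]
  refine Finset.sum_congr rfl fun d hd => ?_
  have hdm : ∑ i ∈ d.support, d i = m := by
    have := hH (mem_support_iff.mp hd)
    rw [Finsupp.weight_apply] at this
    simpa [Finsupp.sum] using this
  have : ∏ i ∈ d.support, (c • v) i ^ d i = c ^ m * ∏ i ∈ d.support, v i ^ d i := by
    rw [← hdm, ← Finset.prod_pow_eq_pow_sum, ← Finset.prod_mul_distrib]
    refine Finset.prod_congr rfl fun i _ => ?_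
    rw [Pi.smul_apply, smul_eq_mul, mul_pow]
  rw [this]
  ring

/-- over an algebraically closed field, a binary form of positive degree has a zero -/
theorem exists_zero [IsAlgClosed L] {H : MvPolynomial (Fin 2) L} {m : ℕ}
    (hH : H.IsHomogeneous m) (hm : 0 < m) : ∃ v : Fin 2 → L, v ≠ 0 ∧ eval v H = 0 := by
  classical
  by_cases h0 : eval ![1, 0] H = 0
  · exact ⟨![1, 0], by intro h; simpa using congrFun h 0, h0⟩
  -- the dehomogenised polynomial
  let p : Polynomial L := aeval ![Polynomial.X, 1] H
  have hev : ∀ x : L, p.eval x = eval ![x, 1] H := by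
    intro x
    have : (Polynomial.evalRingHom x).comp
        ((aeval ![Polynomial.X, 1] : MvPolynomial (Fin 2) L →ₐ[L] Polynomial L)).toRingHom
        = eval ![x, 1] := by
      apply MvPolynomial.ringHom_ext
      · intro a; simp
      · intro i; fin_cases i <;> simp
    exact congrArg (fun f : MvPolynomial (Fin 2) L →+* L => f H) this
  have hp : p.degree ≠ 0 := by
    intro hdeg
    have hc : p = Polynomial.C (p.coeff 0) := Polynomial.eq_C_of_degree_eq_zero hdeg
    -- coefficient of X^m in p is the value at (1,0)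
    have hcoeff : p.coeff m = eval ![1, 0] H := by
      have : p = ∑ d ∈ H.support, Polynomial.C (coeff d H) * Polynomial.X ^ (d 0) := by
        simp only [p]
        rw [aeval_def, eval₂_eq']
        refine Finset.sum_congr rfl fun d hd => ?_
        simp [Fin.prod_univ_two]
      rw [this, Polynomial.finsetSum_coeff, eval_eq']
      refine Finset.sum_congr rfl fun d hd => ?_
      have hdm : d 0 + d 1 = m := by
        have := hH (mem_support_iff.mp hd)
        rw [Finsupp.weight_apply, Finsupp.sum_fintype] at this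
        · simpa [Fin.sum_univ_two] using this
        · simp
      rw [Polynomial.coeff_C_mul, Polynomial.coeff_X_pow, Fin.prod_univ_two]
      simp only [Matrix.cons_val_zero, one_pow, one_mul, Matrix.cons_val_one]
      by_cases h1 : d 1 = 0
      · have : m = d 0 := by omega
        simp [h1, this]
      · have : m ≠ d 0 := by omega
        simp [h1, this]
    rw [← hcoeff, hc, Polynomial.coeff_C, if_neg (by omega)] at h0
    exact h0 rfl
  obtain ⟨x, hx⟩ := IsAlgClosed.exists_root p hp
  refine ⟨![x, 1], by intro h; simpa using congrFun h 1, ?_⟩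
  rw [← hev]
  exact hx

theorem isHomogeneous_of_mul {σ : Type*} {p q : MvPolynomial σ L} {a b : ℕ} (hp0 : p ≠ 0)
    (hp : p.IsHomogeneous a) (hpq : (p * q).IsHomogeneous (a + b)) : q.IsHomogeneous b := by
  classical
  by_cases hq0 : q = 0
  · rw [hq0]; exact isHomogeneous_zero _ _ _
  have h1 : ∀ c, c ≠ b → homogeneousComponent c q = 0 := by
    intro c hc
    have h2 : homogeneousComponent (a + c) (p * q) = p * homogeneousComponent c q := by
      have hsum : q = ∑ i ∈ Finset.range (q.totalDegree + 1), homogeneousComponent i q :=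
        (sum_homogeneousComponent q).symm
      conv_lhs => rw [hsum, Finset.mul_sum, map_sum]
      by_cases hcr : c ∈ Finset.range (q.totalDegree + 1)
      · rw [Finset.sum_eq_single c]
        · have : (p * homogeneousComponent c q).IsHomogeneous (a + c) :=
            hp.mul (homogeneousComponent_isHomogeneous c q)
          rw [homogeneousComponent_of_mem this]
          simp
        · intro i _ hi
          have : (p * homogeneousComponent i q).IsHomogeneous (a + i) :=
            hp.mul (homogeneousComponent_isHomogeneous i q)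
          rw [homogeneousComponent_of_mem this, if_neg (by omega)]
        · intro h; exact absurd hcr h
      · have hz : homogeneousComponent c q = 0 := by
          apply homogeneousComponent_eq_zero
          simpa using hcr
        rw [hz, mul_zero]
        apply Finset.sum_eq_zero
        intro i hi
        have : (p * homogeneousComponent i q).IsHomogeneous (a + i) :=
          hp.mul (homogeneousComponent_isHomogeneous i q)
        rw [homogeneousComponent_of_mem this, if_neg]
        intro h
        apply hcr
        have : c = i := by omega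
        rw [this]; exact hi
    have h3 : homogeneousComponent (a + c) (p * q) = 0 := by
      rw [homogeneousComponent_of_mem hpq, if_neg (by omega)]
    rw [h3] at h2
    rcases mul_eq_zero.mp h2.symm with h | h
    · exact absurd h hp0
    · exact h
  have h4 : q = homogeneousComponent b q := by
    conv_lhs => rw [← sum_homogeneousComponent q]
    by_cases hb : b ∈ Finset.range (q.totalDegree + 1)
    · rw [Finset.sum_eq_single b]
      · intro i _ hi; exact h1 i hi
      · intro h; exact absurd hb h
    · rw [homogeneousComponent_eq_zero _ _ (by simpa using hb)]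
      apply Finset.sum_eq_zero
      intro i hi
      apply h1
      rintro rfl
      exact hb hi
  rw [h4]
  exact homogeneousComponent_isHomogeneous b q

theorem linForm_smul (c : L) (v : Fin 2 → L) : linForm (c • v) = C c * linForm v := by
  simp only [linForm, Pi.smul_apply, smul_eq_mul, map_mul]
  ring

/-- factorisation of binary forms -/
theorem exists_factorisation [IsAlgClosed L] {H : MvPolynomial (Fin 2) L} {m : ℕ}
    (hH : H.IsHomogeneous m) (h0 : H ≠ 0) :
    ∃ (c : L) (s : Multiset (ℙ L (Fin 2 → L))), c ≠ 0 ∧ s.card = m ∧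
      H = C c * (s.map (fun a => linForm a.rep)).prod := by
  induction m generalizing H with
  | zero =>
    refine ⟨coeff 0 H, 0, ?_, rfl, ?_⟩
    · intro h
      apply h0
      rw [totalDegree_eq_zero_iff_eq_C.mp (hH.totalDegree h0), h, map_zero]
    · simpa using totalDegree_eq_zero_iff_eq_C.mp (hH.totalDegree h0)
  | succ m ih =>
    obtain ⟨v, hv, hv0⟩ := exists_zero hH (Nat.succ_pos m)
    let a : ℙ L (Fin 2 → L) := Projectivization.mk L v hv
    have ha : eval a.rep H = 0 := by
      obtain ⟨u, hu⟩ := Projectivization.exists_smul_eq_mk_rep L v hv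
      have : a.rep = (u : L) • v := hu.symm
      rw [this, eval_smul_of_homog hH, hv0, mul_zero]
    obtain ⟨q, hq⟩ := linForm_dvd hH a.rep_nonzero ha
    have hq0 : q ≠ 0 := by
      rintro rfl
      apply h0
      rw [hq, mul_zero]
    have hqh : q.IsHomogeneous m := by
      apply isHomogeneous_of_mul (linForm_ne_zero a.rep_nonzero) (linForm_homog a.rep)
      rw [← hq, add_comm]
      exact hH
    obtain ⟨c, s, hc, hs, hcs⟩ := ih hqh hq0
    refine ⟨c, a ::ₘ s, hc, by simp [hs], ?_⟩
    rw [hq, Multiset.map_cons, Multiset.prod_cons]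
    nth_rewrite 1 [hcs]
    ring


theorem linForm_dvd_linForm_iff (a b : ℙ L (Fin 2 → L)) :
    linForm a.rep ∣ linForm b.rep ↔ a = b := by
  constructor
  · intro h
    have h0 := eval_eq_zero_of_linForm_dvd h
    rw [eval_linForm] at h0
    have ha := a.rep_nonzero
    have hb := b.rep_nonzero
    rw [← a.mk_rep, ← b.mk_rep, Projectivization.mk_eq_mk_iff']
    by_cases hb0 : b.rep 0 = 0
    · have hb1 : b.rep 1 ≠ 0 := by
        intro h1; apply hb; funext i; fin_cases i
        · exact hb0
        · exact h1
      rw [hb0, zero_mul, sub_zero] at h0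
      have ha0 : a.rep 0 = 0 := by
        rcases mul_eq_zero.mp h0 with h | h
        · exact absurd h hb1
        · exact h
      refine ⟨a.rep 1 / b.rep 1, ?_⟩
      funext i
      fin_cases i
      · simp [ha0, hb0]
      · simp [div_mul_cancel₀ _ hb1]
    · refine ⟨a.rep 0 / b.rep 0, ?_⟩
      funext i
      fin_cases i
      · simp [div_mul_cancel₀ _ hb0]
      · simp only [Fin.mk_one, Fin.isValue, Pi.smul_apply, smul_eq_mul]
        field_simp
        linear_combination h0
  · rintro rfl
    exact dvd_rfl

theorem emultiplicity_linForm [DecidableEq (ℙ L (Fin 2 → L))] (a : ℙ L (Fin 2 → L)) (c : L) (hc : c ≠ 0)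
    (s : Multiset (ℙ L (Fin 2 → L))) :
    emultiplicity (linForm a.rep) (C c * (s.map (fun a => linForm a.rep)).prod) = s.count a := by
  have hp := linForm_prime a.rep_nonzero
  rw [emultiplicity_mul hp]
  have h1 : emultiplicity (linForm a.rep) (C c) = 0 := by
    rw [emultiplicity_eq_zero]
    intro h
    exact hp.not_isUnit (isUnit_of_dvd_unit h (IsUnit.map _ (isUnit_iff_ne_zero.mpr hc)))
  rw [h1, zero_add]
  induction s using Multiset.induction_on with
  | empty =>
    simp only [Multiset.map_zero, Multiset.prod_zero, Multiset.count_zero, Nat.cast_zero]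
    rw [emultiplicity_eq_zero]
    intro h
    exact hp.not_isUnit (isUnit_of_dvd_one h)
  | cons b s ih =>
    rw [Multiset.map_cons, Multiset.prod_cons, emultiplicity_mul hp, ih, Multiset.count_cons]
    by_cases hab : a = b
    · subst hab
      have hfin : FiniteMultiplicity (linForm a.rep) (linForm a.rep) :=
        FiniteMultiplicity.of_prime_left hp hp.ne_zero
      rw [hfin.emultiplicity_self]
      simp [add_comm]
    · have : emultiplicity (linForm a.rep) (linForm b.rep) = 0 := by
        rw [emultiplicity_eq_zero, linForm_dvd_linForm_iff]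
        exact hab
      rw [this, zero_add, if_neg hab, add_zero]

theorem sum_le_totalDegree {D : MvPolynomial (Fin 2) L} (hD : D ≠ 0)
    (t : Finset (ℙ L (Fin 2 → L))) (k : ℙ L (Fin 2 → L) → ℕ)
    (h : ∀ a ∈ t, linForm a.rep ^ k a ∣ D) : ∑ a ∈ t, k a ≤ D.totalDegree := by
  classical
  have hdvd : ∏ a ∈ t, linForm a.rep ^ k a ∣ D := by
    apply Finset.prod_dvd_of_isRelPrime
    · intro a _ b _ hab
      apply IsRelPrime.pow
      have ha := linForm_irreducible a.rep_nonzero
      rw [ha.isRelPrime_iff_not_dvd, linForm_dvd_linForm_iff]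
      exact hab
    · exact h
  have h1 := totalDegree_le_of_dvd_of_isDomain hdvd hD
  have h2 : ∀ t : Finset (ℙ L (Fin 2 → L)),
      (∏ a ∈ t, linForm a.rep ^ k a).totalDegree = ∑ a ∈ t, k a := by
    intro t
    have hh : (∏ a ∈ t, linForm a.rep ^ k a).IsHomogeneous (∑ a ∈ t, k a) := by
      apply IsHomogeneous.prod
      intro a _
      simpa using (linForm_homog a.rep).pow (k a)
    apply hh.totalDegree
    rw [Finset.prod_ne_zero_iff]
    intro a _
    exact pow_ne_zero _ (linForm_ne_zero a.rep_nonzero)
  rw [h2] at h1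
  exact h1

/-- evaluation at `v` commutes with the extended derivation, when the variables are sent to the derivatives of
the coordinates of `v` -/
theorem eval_polyDerivation {K σ : Type*} [Field K] [Algebra K L]
    (δ : Derivation K L L) (v : σ → L)
    (D : Derivation K (MvPolynomial σ L) (MvPolynomial σ L))
    (hC : ∀ a, D (C a) = C (δ a)) (hX : ∀ i, D (X i) = C (δ (v i))) (p : MvPolynomial σ L) :
    eval v (D p) = δ (eval v p) := by
  induction p using MvPolynomial.induction_on with
  | C a => simp [hC]
  | add p q hp hq => simp [hp, hq]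
  | mul_X p i hp =>
    rw [Derivation.leibniz, smul_eq_mul, smul_eq_mul, map_add, map_mul, map_mul, hX, hp, eval_C,
      map_mul, eval_X, Derivation.leibniz, smul_eq_mul, smul_eq_mul]

theorem totalDegree_derivation_le {K : Type*} [Field K] [Algebra K L]
    (D : Derivation K (MvPolynomial (Fin 2) L) (MvPolynomial (Fin 2) L))
    (hC : ∀ a, ∃ b, D (C a) = C b) (hX : ∀ i, ∃ b, D (X i) = C b) {p : MvPolynomial (Fin 2) L}
    {N : ℕ} (hp : p.totalDegree ≤ N) : (D p).totalDegree ≤ N := by
  classical
  have hpow : ∀ (i : Fin 2) (r : ℕ), (D (X i ^ r)).totalDegree ≤ r := by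
    intro i r
    obtain ⟨b, hb⟩ := hX i
    rw [Derivation.leibniz_pow, hb]
    cases r with
    | zero => simp
    | succ r =>
      have h1 : ((r + 1) • (X i : MvPolynomial (Fin 2) L) ^ (r + 1 - 1) • (C b : MvPolynomial (Fin 2) L)) =
          C ((r + 1 : ℕ) * b) * X i ^ r := by
        simp only [Nat.add_sub_cancel, nsmul_eq_mul, smul_eq_mul, map_mul, map_natCast]
        ring
      rw [h1]
      refine (totalDegree_mul _ _).trans ?_
      rw [totalDegree_C, zero_add, totalDegree_X_pow]
      omega
  have hmono : ∀ (m : Fin 2 →₀ ℕ) (a : L), (D (monomial m a)).totalDegree ≤ m 0 + m 1 := by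
    intro m a
    have h1 : monomial m a = C a * (X 0 ^ m 0 * X 1 ^ m 1) := by
      rw [monomial_eq, Finsupp.prod_fintype _ _ (by simp), Fin.prod_univ_two]
    obtain ⟨b, hb⟩ := hC a
    rw [h1, Derivation.leibniz, Derivation.leibniz, hb]
    simp only [smul_eq_mul]
    refine (totalDegree_add _ _).trans (max_le ?_ ?_)
    · refine (totalDegree_mul _ _).trans ?_
      rw [totalDegree_C, zero_add]
      refine (totalDegree_add _ _).trans (max_le ?_ ?_)
      · refine (totalDegree_mul _ _).trans ?_
        rw [totalDegree_X_pow]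
        exact Nat.add_le_add_left (hpow 1 _) _
      · refine (totalDegree_mul _ _).trans ?_
        rw [totalDegree_X_pow, add_comm]
        exact Nat.add_le_add_right (hpow 0 _) _
    · refine (totalDegree_mul _ _).trans ?_
      rw [totalDegree_C, add_zero]
      refine (totalDegree_mul _ _).trans ?_
      rw [totalDegree_X_pow, totalDegree_X_pow]
  have h2 : D p = ∑ m ∈ p.support, D (monomial m (coeff m p)) := by
    conv_lhs => rw [← support_sum_monomial_coeff p, map_sum]
  rw [h2]
  apply totalDegree_finsetSum_le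
  intro m hm
  refine (hmono m _).trans (le_trans ?_ hp)
  have := le_totalDegree hm
  rw [Finsupp.sum_fintype _ _ (by simp), Fin.sum_univ_two] at this
  exact this

theorem totalDegree_det_le {n : ℕ} (M : Matrix (Fin n) (Fin n) (MvPolynomial (Fin 2) L))
    (d : Fin n → ℕ) (h : ∀ i j, (M i j).totalDegree ≤ d j) :
    M.det.totalDegree ≤ ∑ j, d j := by
  classical
  rw [Matrix.det_apply]
  apply totalDegree_finsetSum_le
  intro σ _
  have h1 : (∏ i, M (σ i) i).totalDegree ≤ ∑ j, d j :=
    (totalDegree_finsetProd _ _).trans (Finset.sum_le_sum fun i _ => h _ _)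
  rcases Int.units_eq_one_or (Equiv.Perm.sign σ) with hs | hs
  · rw [hs, one_smul]; exact h1
  · rw [hs, Units.neg_smul, one_smul, totalDegree_neg]; exact h1

/-- if a power of a form divides `p`, then one power less divides each derivative of `p` -/
theorem pow_dvd_derivation {K R : Type*} [CommRing K] [CommRing R] [Algebra K R]
    (D : Derivation K R R) {l p : R} {k : ℕ} (h : l ^ (k + 1) ∣ p) : l ^ k ∣ D p := by
  obtain ⟨q, rfl⟩ := h
  rw [Derivation.leibniz, Derivation.leibniz_pow]
  simp only [smul_eq_mul, nsmul_eq_mul, Nat.add_sub_cancel]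
  apply dvd_add
  · rw [pow_succ, mul_assoc]
    exact dvd_mul_right _ _
  · refine Dvd.intro (q * ((k + 1 : ℕ) * D l)) ?_
    ring

/-- the two first order derivatives of a non-constant morphism are generically independent -/
theorem jacobian_ne [IsAlgClosed L] [CharZero L] {τ : Type*} {e : ℕ} (he : 0 < e)
    (F : τ → MvPolynomial (Fin 2) L)
    (hF : ∀ i, (F i).IsHomogeneous e)
    (hbf : ∀ w : Fin 2 → L, w ≠ 0 → ∃ i, eval w (F i) ≠ 0) (i0 : τ) (hi0 : F i0 ≠ 0)
    (hJ : ∀ i j, pderiv 0 (F i) * pderiv 1 (F j) = pderiv 0 (F j) * pderiv 1 (F i)) : False := by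
  classical
  obtain ⟨z, hz, hz0⟩ := exists_zero (hF i0) he
  have hl := linForm_prime hz
  have hdvd := linForm_dvd (hF i0) hz hz0
  have hfin : FiniteMultiplicity (linForm z) (F i0) := FiniteMultiplicity.of_prime_left hl hi0
  obtain ⟨k, h, hk, hh⟩ : ∃ k h, F i0 = linForm z ^ (k + 1) * h ∧ ¬ linForm z ∣ h := by
    obtain ⟨h, hh1, hh2⟩ := hfin.exists_eq_pow_mul_and_not_dvd
    have hpos : 0 < multiplicity (linForm z) (F i0) := by
      exact multiplicity_pos_of_dvd hdvd
    refine ⟨multiplicity (linForm z) (F i0) - 1, h, ?_, hh2⟩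
    rw [Nat.sub_add_cancel hpos]
    exact hh1
  obtain ⟨i, hi⟩ := hbf z hz
  have hni : ¬ linForm z ∣ F i := fun hd => hi (eval_eq_zero_of_linForm_dvd hd)
  have eul : ∀ j, X 0 * pderiv 0 (F j) + X 1 * pderiv 1 (F j) = C (e : L) * F j := by
    intro j
    have := (hF j).sum_X_mul_pderiv
    rw [Fin.sum_univ_two] at this
    rw [this, nsmul_eq_mul, map_natCast]
  have he0 : (C (e : L) : MvPolynomial (Fin 2) L) ≠ 0 := by
    rw [Ne, C_eq_zero]
    exact_mod_cast he.ne'
  have hrel : ∀ c : Fin 2, F i0 * pderiv c (F i) = F i * pderiv c (F i0) := by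
    intro c
    apply mul_left_cancel₀ he0
    rw [← mul_assoc, ← mul_assoc, ← eul i0, ← eul i]
    have := hJ i0 i
    fin_cases c
    · simp only [Fin.zero_eta, Fin.isValue]
      linear_combination (-X 1) * this
    · simp only [Fin.mk_one, Fin.isValue]
      linear_combination (X 0) * this
  have hc : ∀ c : Fin 2, pderiv c (linForm z) = 0 := by
    intro c
    have h1 : linForm z ^ (k + 1) ∣ pderiv c (F i0) := by
      have : linForm z ^ (k + 1) ∣ F i * pderiv c (F i0) := by
        rw [← hrel c, hk, mul_assoc]
        exact dvd_mul_right _ _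
      exact hl.pow_dvd_of_dvd_mul_left _ hni this
    rw [hk, Derivation.leibniz, Derivation.leibniz_pow] at h1
    simp only [smul_eq_mul, nsmul_eq_mul, Nat.add_sub_cancel] at h1
    rw [dvd_add_right (dvd_mul_right _ _)] at h1
    have h2 : linForm z ^ k * linForm z ∣
        linForm z ^ k * (h * (((k + 1 : ℕ) : MvPolynomial (Fin 2) L) * pderiv c (linForm z))) := by
      rw [← pow_succ]
      convert h1 using 1
      ring
    have h3 := (mul_dvd_mul_iff_left (pow_ne_zero k hl.ne_zero)).mp h2
    have h4 := (hl.dvd_or_dvd h3).resolve_left hh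
    have h5 : linForm z ∣ pderiv c (linForm z) := by
      have hu : IsUnit (((k + 1 : ℕ) : MvPolynomial (Fin 2) L)) := by
        rw [← map_natCast (C : L →+* MvPolynomial (Fin 2) L)]
        apply IsUnit.map
        rw [isUnit_iff_ne_zero]
        exact_mod_cast Nat.succ_ne_zero k
      exact (hu.dvd_mul_left).mp h4
    by_contra hne
    have h6 := totalDegree_le_of_dvd_of_isDomain h5 hne
    rw [(linForm_homog z).totalDegree (linForm_ne_zero hz)] at h6
    have h7 : (pderiv c (linForm z)).IsHomogeneous (1 - 1) := (linForm_homog z).pderiv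
    have h8 := h7.totalDegree hne
    omega
  apply hz
  funext i
  fin_cases i
  · have := hc 1
    simpa [linForm, pderiv_X_of_ne, pderiv_C_mul] using this
  · have := hc 0
    simpa [linForm, pderiv_X_of_ne, pderiv_C_mul] using this

/-- chain rule -/
theorem derivation_aeval {K R : Type*} {τ : Type*} [Fintype τ] [CommRing K]
    [CommRing R] [Algebra K R]
    (D : Derivation K R R) (F : τ → R) (G : MvPolynomial τ K) :
    D (aeval F G) = ∑ i, aeval F (pderiv i G) * D (F i) := by
  induction G using MvPolynomial.induction_on with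
  | C a => simp
  | add p q hp hq => simp [hp, hq, add_mul, Finset.sum_add_distrib]
  | mul_X p i hp =>
    classical
    simp only [map_mul, aeval_X, Derivation.leibniz, hp, smul_eq_mul, map_add, pderiv_X, add_mul,
      Finset.sum_add_distrib, Finset.mul_sum]
    congr 1
    · rw [Finset.sum_eq_single i]
      · simp
      · intro b _ hb
        simp [hb.symm]
      · simp
    · refine Finset.sum_congr rfl fun j _ => ?_
      ring


theorem core {K : Type*} [Field K] [CharZero K] [CharZero L] [IsAlgClosed L]
    [Algebra K L] {n : ℕ}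
    (hder : ∀ (x : Fin n → L), AlgebraicIndependent K x → ∀ y : Fin n → L,
      ∃ δ : Derivation K L L, ∀ i, δ (x i) = y i)
    (hpol : ∀ (δ : Derivation K L L) (w : Fin 2 → MvPolynomial (Fin 2) L),
      ∃ D : Derivation K (MvPolynomial (Fin 2) L) (MvPolynomial (Fin 2) L),
      (∀ a, D (C a) = C (δ a)) ∧ (∀ i, D (X i) = w i))
    (G : MvPolynomial (Fin (n + 1)) K)
    (hsm : ∀ x : Fin (n + 1) → L, x ≠ 0 → aeval x G = 0 → ∃ i, aeval x (pderiv i G) ≠ 0)
    {e : ℕ} (he : 0 < e) (F : Fin (n + 1) → MvPolynomial (Fin 2) L)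
    (hF : ∀ i, (F i).IsHomogeneous e)
    (hbf : ∀ w : Fin 2 → L, w ≠ 0 → ∃ i, eval w (F i) ≠ 0)
    (v : Fin 2 → L) (hy0 : eval v (F 0) ≠ 0)
    (hind : AlgebraicIndependent K (fun i : Fin n => eval v (F i.succ) / eval v (F 0))) :
    ∃ Δ : MvPolynomial (Fin 2) L, Δ ≠ 0 ∧ Δ.totalDegree + 2 ≤ (n + 1) * e ∧
      ∀ (w : Fin 2 → L), w ≠ 0 → ∀ k : ℕ, linForm w ^ (k + 1) ∣ aeval F G →
        linForm w ^ k ∣ Δ := by
  classical
  -- the derivations
  have h1 : ∀ j : Fin n, ∃ δ : Derivation K L L, ∀ i : Fin n,
      δ (eval v (F i.succ) / eval v (F 0)) = if i = j then 1 else 0 := fun j =>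
    hder _ hind (fun i => if i = j then 1 else 0)
  choose δ hδ using h1
  have h2 : ∀ j : Fin n, ∃ D : Derivation K (MvPolynomial (Fin 2) L) (MvPolynomial (Fin 2) L),
      (∀ a, D (C a) = C (δ j a)) ∧ (∀ i, D (X i) = C (δ j (v i))) := fun j =>
    hpol (δ j) (fun i => C (δ j (v i)))
  choose D hDC hDX using h2
  have hev : ∀ j p, eval v (D j p) = δ j (eval v p) := fun j p =>
    eval_polyDerivation (δ j) v (D j) (hDC j) (hDX j) p
  -- the matrix
  let A : Matrix (Fin (n + 1)) (Fin (n + 1)) (MvPolynomial (Fin 2) L) :=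
    Matrix.of fun i j => Fin.cases (F i) (fun j' => D j' (F i)) j
  have hA0 : ∀ i, A i 0 = F i := fun i => rfl
  have hAs : ∀ i (j : Fin n), A i j.succ = D j (F i) := fun i j => rfl
  have hdetA : A.det ≠ 0 := by
    intro hdet
    have h3 : (A.map (eval v)).det = 0 := by
      have : (eval v) A.det = ((eval v).mapMatrix A).det := RingHom.map_det _ _
      rw [hdet, map_zero] at this
      exact this.symm
    obtain ⟨c, hc0, hc⟩ := Matrix.exists_mulVec_eq_zero_iff.mpr h3
    have hrow : ∀ i, eval v (F i) * c 0 + ∑ j : Fin n, δ j (eval v (F i)) * c j.succ = 0 := by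
      intro i
      have := congrFun hc i
      rw [Matrix.mulVec, dotProduct, Fin.sum_univ_succ] at this
      simp only [Matrix.map_apply, hA0, hAs, hev, Pi.zero_apply] at this
      exact this
    have hsuc : ∀ i : Fin n, c i.succ = 0 := by
      intro i
      have hr0 := hrow 0
      have hr := hrow i.succ
      have hdy : ∀ j, δ j (eval v (F i.succ)) =
          eval v (F 0) * (if i = j then 1 else 0) +
            (eval v (F i.succ) / eval v (F 0)) * δ j (eval v (F 0)) := by
        intro j
        have h4 : eval v (F i.succ) = eval v (F 0) * (eval v (F i.succ) / eval v (F 0)) := by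
          field_simp
        conv_lhs => rw [h4]
        rw [Derivation.leibniz, hδ, smul_eq_mul, smul_eq_mul]
      simp only [hdy, add_mul, Finset.sum_add_distrib] at hr
      have h5 : ∑ x : Fin n, eval v (F 0) * (if i = x then 1 else 0) * c x.succ =
          eval v (F 0) * c i.succ := by
        rw [Finset.sum_eq_single i]
        · simp
        · intro b _ hb
          rw [if_neg (Ne.symm hb)]
          ring
        · intro h; exact absurd (Finset.mem_univ _) h
      rw [h5] at hr
      have h6 : ∑ x : Fin n, (eval v (F i.succ) / eval v (F 0)) * δ x (eval v (F 0)) * c x.succ =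
          (eval v (F i.succ) / eval v (F 0)) * ∑ x : Fin n, δ x (eval v (F 0)) * c x.succ := by
        rw [Finset.mul_sum]
        refine Finset.sum_congr rfl fun x _ => ?_
        ring
      rw [h6] at hr
      have h7 : ∑ x : Fin n, δ x (eval v (F 0)) * c x.succ = - (eval v (F 0) * c 0) := by
        linear_combination hr0
      rw [h7] at hr
      have h8 : eval v (F 0) * c i.succ = 0 := by
        have : eval v (F i.succ) / eval v (F 0) * -(eval v (F 0) * c 0) =
            - (eval v (F i.succ) * c 0) := by
          field_simp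
        rw [this] at hr
        linear_combination hr
      exact (mul_eq_zero.mp h8).resolve_left hy0
    apply hc0
    funext i
    refine Fin.cases ?_ (fun i => hsuc i) i
    have hr0 := hrow 0
    simp only [hsuc, mul_zero, Finset.sum_const_zero, add_zero] at hr0
    exact (mul_eq_zero.mp hr0).resolve_left hy0
  -- Euler
  have eul : ∀ j, X 0 * pderiv 0 (F j) + X 1 * pderiv 1 (F j) = C (e : L) * F j := by
    intro j
    have := (hF j).sum_X_mul_pderiv
    rw [Fin.sum_univ_two] at this
    rw [this, nsmul_eq_mul, map_natCast]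
  have he0 : (C (e : L) : MvPolynomial (Fin 2) L) ≠ 0 := by
    rw [Ne, C_eq_zero]
    exact_mod_cast he.ne'
  have hF0 : F 0 ≠ 0 := by
    intro h; rw [h] at hy0; simp at hy0
  -- first replacement
  have h3 : ∃ a b : Fin 2, a ≠ b ∧ (A.updateCol 0 (fun i => pderiv a (F i))).det ≠ 0 := by
    by_contra hcon
    push Not at hcon
    have e0 := hcon 0 1 (by decide)
    have e1 := hcon 1 0 (by decide)
    have h4 : (A.updateCol 0 (fun i => C (e : L) * F i)).det = 0 := by
      have : (fun i => C (e : L) * F i) =
          (X 0 : MvPolynomial (Fin 2) L) • (fun i => pderiv 0 (F i)) +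
          (X 1 : MvPolynomial (Fin 2) L) • (fun i => pderiv 1 (F i)) := by
        funext i
        rw [← eul i]
        rfl
      rw [this, Matrix.det_updateCol_add, Matrix.det_updateCol_smul, Matrix.det_updateCol_smul,
        e0, e1, mul_zero, mul_zero, add_zero]
    have h5 : (A.updateCol 0 (fun i => C (e : L) * F i)).det = C (e : L) * A.det := by
      have : (fun i => C (e : L) * F i) =
          (C (e : L) : MvPolynomial (Fin 2) L) • (fun i => A i 0) := by
        funext i
        rw [Pi.smul_apply, smul_eq_mul, hA0]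
      rw [this, Matrix.det_updateCol_smul]
      congr 2
      exact Matrix.updateCol_eq_self A 0
    rw [h5] at h4
    exact (mul_ne_zero he0 hdetA) h4
  obtain ⟨a, b, hab, hdet1⟩ := h3
  set A1 := A.updateCol 0 (fun i => pderiv a (F i)) with hA1
  have h4 : ∃ j : Fin n, (A1.updateCol j.succ (fun i => pderiv b (F i))).det ≠ 0 := by
    by_contra hcon
    push Not at hcon
    have hcr := Matrix.mulVec_cramer A1 (fun i => pderiv b (F i))
    have hcr0 : ∀ j : Fin n, A1.cramer (fun i => pderiv b (F i)) j.succ = 0 := by
      intro j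
      rw [Matrix.cramer_apply]
      exact hcon j
    have hrel : ∀ i, pderiv a (F i) * A1.cramer (fun i => pderiv b (F i)) 0 =
        A1.det * pderiv b (F i) := by
      intro i
      have := congrFun hcr i
      rw [Matrix.mulVec, dotProduct, Fin.sum_univ_succ] at this
      simp only [hcr0, mul_zero, Finset.sum_const_zero, add_zero, Pi.smul_apply,
        smul_eq_mul] at this
      rw [← this]
      simp [hA1]
    have hJ' : ∀ i j, pderiv a (F i) * pderiv b (F j) = pderiv a (F j) * pderiv b (F i) := by
      intro i j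
      apply mul_left_cancel₀ hdet1
      have ri := hrel i
      have rj := hrel j
      linear_combination (- pderiv a (F i)) * rj + (pderiv a (F j)) * ri
    have hJ : ∀ i j, pderiv 0 (F i) * pderiv 1 (F j) = pderiv 0 (F j) * pderiv 1 (F i) := by
      intro i j
      fin_cases a <;> fin_cases b
      · exact absurd rfl hab
      · exact hJ' i j
      · have := hJ' j i
        simp only [Fin.zero_eta, Fin.isValue, Fin.mk_one] at this
        linear_combination this
      · exact absurd rfl hab
    exact jacobian_ne he F hF hbf 0 hF0 hJ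
  obtain ⟨j, hdet2⟩ := h4
  refine ⟨(A1.updateCol j.succ (fun i => pderiv b (F i))).det, hdet2, ?_, ?_⟩
  · -- degree bound
    set M := A1.updateCol j.succ (fun i => pderiv b (F i)) with hM
    let d : Fin (n + 1) → ℕ := fun j' => if j' = 0 ∨ j' = j.succ then e - 1 else e
    have hd : ∀ i j', (M i j').totalDegree ≤ d j' := by
      intro i j'
      by_cases hj : j' = j.succ
      · subst hj
        have : M i j.succ = pderiv b (F i) := by simp [hM]
        rw [this]
        simp only [d, or_true, if_true]
        exact (hF i).pderiv.totalDegree_le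
      · by_cases hj0 : j' = 0
        · subst hj0
          have : M i 0 = pderiv a (F i) := by
            simp [hM, hA1, (Fin.succ_ne_zero j).symm]
          rw [this]
          simp only [d, true_or, if_true]
          exact (hF i).pderiv.totalDegree_le
        · have hMA : M i j' = A i j' := by
            simp [hM, hA1, hj, hj0]
          rw [hMA]
          simp only [d, hj, hj0, or_self, if_false]
          obtain ⟨j'', rfl⟩ := Fin.exists_succ_eq_of_ne_zero hj0
          rw [hAs]
          exact totalDegree_derivation_le (D j'') (fun a => ⟨_, hDC j'' a⟩)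
            (fun i => ⟨_, hDX j'' i⟩) (hF i).totalDegree_le
    have hle := totalDegree_det_le M d hd
    have hsum : ∑ j', d j' + 2 = (n + 1) * e := by
      have hs1 : ∑ j', (d j' + if j' = 0 ∨ j' = j.succ then 1 else 0) = (n + 1) * e := by
        have : ∀ j', (d j' + if j' = 0 ∨ j' = j.succ then 1 else 0) = e := by
          intro j'
          simp only [d]
          split_ifs <;> omega
        simp only [this, Finset.sum_const, Finset.card_univ, Fintype.card_fin, smul_eq_mul]
      have hs2 : ∑ j' : Fin (n + 1), (if j' = 0 ∨ j' = j.succ then 1 else 0) = 2 := by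
        rw [← Finset.card_filter]
        have : (Finset.univ.filter fun j' : Fin (n + 1) => j' = 0 ∨ j' = j.succ) =
            {0, j.succ} := by
          ext x; simp
        rw [this, Finset.card_pair (Fin.succ_ne_zero j).symm]
      rw [Finset.sum_add_distrib, hs2] at hs1
      exact hs1
    omega
  · -- divisibility
    intro w hw k hdvd
    set M := A1.updateCol j.succ (fun i => pderiv b (F i)) with hM
    let g : Fin (n + 1) → MvPolynomial (Fin 2) L := fun i => aeval F (pderiv i G)
    have hg : ∀ D' : Derivation K (MvPolynomial (Fin 2) L) (MvPolynomial (Fin 2) L),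
        linForm w ^ k ∣ ∑ i, g i * D' (F i) := by
      intro D'
      rw [← derivation_aeval]
      exact pow_dvd_derivation D' hdvd
    have hcol : ∀ j', linForm w ^ k ∣ (Matrix.vecMul g M) j' := by
      intro j'
      rw [Matrix.vecMul, dotProduct]
      by_cases hj : j' = j.succ
      · subst hj
        have : ∀ i, M i j.succ = (pderiv b).restrictScalars K (F i) := by
          intro i; simp [hM]
        simp only [this]
        exact hg _
      · by_cases hj0 : j' = 0
        · subst hj0
          have : ∀ i, M i 0 = (pderiv a).restrictScalars K (F i) := by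
            intro i
            simp [hM, hA1, (Fin.succ_ne_zero j).symm]
          simp only [this]
          exact hg _
        · obtain ⟨j'', rfl⟩ := Fin.exists_succ_eq_of_ne_zero hj0
          have : ∀ i, M i j''.succ = D j'' (F i) := by
            intro i
            rw [← hAs]
            simp [hM, hA1, hj]
          simp only [this]
          exact hg _
    have hall : ∀ i, linForm w ^ k ∣ g i * M.det := by
      intro i
      have h5 : Matrix.vecMul (Matrix.vecMul g M) M.adjugate = M.det • g := by
        rw [Matrix.vecMul_vecMul, Matrix.mul_adjugate, Matrix.vecMul_smul, Matrix.vecMul_one]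
      have h6 := congrFun h5 i
      rw [Pi.smul_apply, smul_eq_mul, mul_comm] at h6
      rw [← h6, Matrix.vecMul, dotProduct]
      apply Finset.dvd_sum
      intro j' _
      exact dvd_mul_of_dvd_left (hcol j') _
    -- a component of the gradient not vanishing at w
    have hl := linForm_prime hw
    let x : Fin (n + 1) → L := fun i => eval w (F i)
    have hx : x ≠ 0 := by
      obtain ⟨i, hi⟩ := hbf w hw
      intro h
      exact hi (congrFun h i)
    have hcomp : ∀ Q : MvPolynomial (Fin (n + 1)) K, eval w (aeval F Q) = aeval x Q := by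
      intro Q
      induction Q using MvPolynomial.induction_on with
      | C a =>
        rw [aeval_C, aeval_C]
        rw [MvPolynomial.algebraMap_apply, eval_C]
      | add p q hp hq => simp only [map_add, hp, hq]
      | mul_X p i hp => simp only [map_mul, hp, aeval_X, x]
    have hGx : aeval x G = 0 := by
      rw [← hcomp]
      apply eval_eq_zero_of_linForm_dvd
      exact (dvd_pow_self _ (Nat.succ_ne_zero k)).trans hdvd
    obtain ⟨i, hi⟩ := hsm x hx hGx
    have hni : ¬ linForm w ∣ g i := by
      intro h
      apply hi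
      rw [← hcomp]
      exact eval_eq_zero_of_linForm_dvd h
    exact hl.pow_dvd_of_dvd_mul_left _ hni (hall i)


/-! ## Very general points -/

/-- there is a countable subfield containing the coefficients of countably many polynomials -/
theorem exists_countable_field {σ : Type} (Z : ℕ → MvPolynomial σ ℂ) :
    ∃ K : Subfield ℂ, Countable K ∧ ∀ k, ∃ A : MvPolynomial σ K, map (algebraMap K ℂ) A = Z k := by
  classical
  let S : Set ℂ := ⋃ k, ((Z k).coeffs : Set ℂ)
  have hS : S.Countable := Set.countable_iUnion fun k => Finset.countable_toSet _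
  refine ⟨Subfield.closure S, ?_, fun k => ?_⟩
  · have h := Subfield.cardinalMk_closure_le_max S
    rw [← Cardinal.mk_le_aleph0_iff]
    refine h.trans ?_
    apply max_le _ le_rfl
    exact Cardinal.mk_le_aleph0_iff.mpr hS
  · have : Z k ∈ Set.range (map (σ := σ) (algebraMap (Subfield.closure S) ℂ)) := by
      rw [mem_range_map_iff_coeffs_subset]
      intro x hx
      have hxS : x ∈ S := Set.mem_iUnion.mpr ⟨k, hx⟩
      exact ⟨⟨x, Subfield.subset_closure hxS⟩, rfl⟩
    exact this

/-- a countable union of hypersurfaces does not fill the whole space -/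
theorem exists_avoid {m : ℕ} (Z : ℕ → MvPolynomial (Fin m) ℂ) (hZ : ∀ k, Z k ≠ 0) :
    ∃ y : Fin m → ℂ, ∀ k, eval y (Z k) ≠ 0 := by
  classical
  obtain ⟨K, hK, hA⟩ := exists_countable_field Z
  choose A hA using hA
  obtain ⟨ι, b, hb⟩ := exists_isTranscendenceBasis' K ℂ
  have hcard : Cardinal.mk ℂ = Cardinal.mk ι := by
    have := IsAlgClosed.cardinal_eq_cardinal_transcendence_basis_of_aleph0_lt b hb
      (Cardinal.mk_le_aleph0_iff.mpr hK) (by rw [Cardinal.mk_complex]; exact Cardinal.aleph0_lt_continuum)
    simpa using this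
  have hinf : Infinite ι := by
    rw [Cardinal.infinite_iff, ← hcard]
    exact Cardinal.infinite_iff.mp inferInstance
  let g : Fin m ↪ ι := (Fin.valEmbedding).trans (Infinite.natEmbedding ι)
  have hind : AlgebraicIndependent K (b ∘ g) := hb.1.comp g g.injective
  refine ⟨b ∘ g, fun k => ?_⟩
  rw [← hA k, eval_map, ← aeval_def]
  intro h0
  have := (algebraicIndependent_iff.mp hind) (A k) h0
  apply hZ k
  rw [← hA k, this, map_zero]

/-- if no non-zero homogeneous polynomial over `K` vanishes at `y`, then the ratios `y_i / y_0` are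
algebraically independent over `K` -/
theorem algebraicIndependent_ratios {K L : Type*} [Field K] [Field L] [Algebra K L] {n : ℕ}
    (y : Fin (n + 1) → L)
    (h : ∀ A : MvPolynomial (Fin (n + 1)) K, A ≠ 0 → (∃ m, A.IsHomogeneous m) → aeval y A ≠ 0) :
    y 0 ≠ 0 ∧ AlgebraicIndependent K (fun i : Fin n => y i.succ / y 0) := by
  classical
  have hy0 : y 0 ≠ 0 := by
    have := h (X 0) (X_ne_zero 0) ⟨1, isHomogeneous_X _ _⟩
    simpa using this
  refine ⟨hy0, ?_⟩
  rw [algebraicIndependent_iff]
  intro Q hQ
  by_contra hQ0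
  let N := Q.totalDegree
  let T : (Fin n →₀ ℕ) → (Fin (n + 1) →₀ ℕ) := fun m => Finsupp.cons (N - m.degree) m
  have hT : Function.Injective T := by
    intro m m' hmm
    have : Finsupp.tail (T m) = Finsupp.tail (T m') := by rw [hmm]
    simpa [T, Finsupp.tail_cons] using this
  let A : MvPolynomial (Fin (n + 1)) K := ∑ m ∈ Q.support, monomial (T m) (coeff m Q)
  have hA0 : A ≠ 0 := by
    obtain ⟨m, hm⟩ := MvPolynomial.support_nonempty.mpr hQ0
    intro hA
    have : coeff (T m) A = coeff m Q := by
      simp only [A, coeff_sum, coeff_monomial]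
      rw [Finset.sum_eq_single m]
      · simp
      · intro b _ hb
        rw [if_neg]
        intro hh
        exact hb (hT hh)
      · intro h; exact absurd hm h
    rw [hA, coeff_zero] at this
    exact (mem_support_iff.mp hm) this.symm
  have hAh : A.IsHomogeneous N := by
    apply IsHomogeneous.sum
    intro m hm
    apply isHomogeneous_monomial
    have h1 : m.degree ≤ N := by
      have := le_totalDegree hm
      rw [Finsupp.sum_fintype _ _ (by simp)] at this
      rw [Finsupp.degree_eq_sum]
      exact this
    have h2 : (T m).degree = (N - m.degree) + m.degree := by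
      simp only [T, Finsupp.degree_eq_sum, Fin.sum_univ_succ, Finsupp.cons_zero, Finsupp.cons_succ]
    rw [h2]
    omega
  apply h A hA0 ⟨N, hAh⟩
  have hterm : ∀ m ∈ Q.support, aeval y (monomial (T m) (coeff m Q)) =
      y 0 ^ N * aeval (fun i : Fin n => y i.succ / y 0) (monomial m (coeff m Q)) := by
    intro m hm
    have h1 : m.degree ≤ N := by
      have := le_totalDegree hm
      rw [Finsupp.sum_fintype _ _ (by simp)] at this
      rw [Finsupp.degree_eq_sum]
      exact this
    rw [aeval_monomial, aeval_monomial, Finsupp.prod_fintype _ _ (by simp),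
      Finsupp.prod_fintype _ _ (by simp), Fin.prod_univ_succ]
    simp only [T, Finsupp.cons_zero, Finsupp.cons_succ, div_pow, Finset.prod_div_distrib]
    have h3 : ∏ i : Fin n, y 0 ^ m i = y 0 ^ m.degree := by
      rw [Finset.prod_pow_eq_pow_sum, Finsupp.degree_eq_sum]
    rw [h3]
    have h4 : y 0 ^ N = y 0 ^ (N - m.degree) * y 0 ^ m.degree := by
      rw [← pow_add]; congr 1; omega
    rw [h4]
    have h5 : y 0 ^ m.degree ≠ 0 := pow_ne_zero _ hy0
    field_simp
  calc aeval y A = ∑ m ∈ Q.support, aeval y (monomial (T m) (coeff m Q)) := by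
        simp only [A, map_sum]
    _ = ∑ m ∈ Q.support, y 0 ^ N *
          aeval (fun i : Fin n => y i.succ / y 0) (monomial m (coeff m Q)) :=
        Finset.sum_congr rfl hterm
    _ = y 0 ^ N * aeval (fun i : Fin n => y i.succ / y 0)
          (∑ m ∈ Q.support, monomial m (coeff m Q)) := by
        rw [map_sum, Finset.mul_sum]
    _ = 0 := by rw [support_sum_monomial_coeff, hQ, mul_zero]

/-! ## The main estimate -/

/-- the inequality `m ≤ t m'` between multiplicities, in terms of the coefficients -/
theorem le_of_mult_le {c c' : ℚ} (hc : c ≤ 1) (hc' : c' ≤ 1) (t : ℕ)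
    (h : mult c ≤ (t : ℝ≥0∞) * mult c') : 1 - c' ≤ t * (1 - c) := by
  rcases hc'.lt_or_eq with hlt | heq
  · have hu' : (0 : ℝ) < 1 - (c' : ℝ) := by
      have : (c' : ℝ) < 1 := by exact_mod_cast hlt
      linarith
    have hu : (0 : ℝ) ≤ 1 - (c : ℝ) := by
      have : (c : ℝ) ≤ 1 := by exact_mod_cast hc
      linarith
    unfold mult at h
    have hfin : (ENNReal.ofReal (1 - (c' : ℝ)))⁻¹ ≠ ⊤ := by
      rw [Ne, ENNReal.inv_eq_top]
      exact (ENNReal.ofReal_pos.mpr hu').ne'
    have hu0 : (0 : ℝ) < 1 - (c : ℝ) := by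
      rcases hu.lt_or_eq with h1 | h1
      · exact h1
      · exfalso
        rw [← h1, ENNReal.ofReal_zero, ENNReal.inv_zero, top_le_iff] at h
        exact ENNReal.mul_ne_top (ENNReal.natCast_ne_top t) hfin h
    rw [← ENNReal.ofReal_inv_of_pos hu0, ← ENNReal.ofReal_inv_of_pos hu',
      ← ENNReal.ofReal_natCast, ← ENNReal.ofReal_mul (Nat.cast_nonneg t),
      ENNReal.ofReal_le_ofReal_iff (by positivity)] at h
    have h2 : (1 : ℝ) - c' ≤ t * (1 - c) := by
      rw [inv_eq_one_div, inv_eq_one_div, mul_one_div, div_le_div_iff₀ hu0 hu'] at h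
      linarith
    exact_mod_cast h2
  · rw [heq, sub_self]
    have : 0 ≤ 1 - c := by linarith
    positivity

/-- the main estimate: through a point whose coordinate ratios are algebraically independent over a
field of definition of `B`, there is no orbifold rational curve -/
theorem no_curve {n d D q : ℕ} (P : OrbifoldPair n) {c : ℚ} (hP : P.IsSingle d c)
    (hd : d = n + 1 + D) (h2 : d < (q + 1) * D)
    (hc1 : 1 ≤ (q + 1) * (1 - c)) (hc0 : 2 ≤ (1 - q * (1 - c)) * ((q + 1) * (D + 2) - d))
    (K : Subfield ℂ) (G : MvPolynomial (Fin (n + 1)) K)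
    (hG : ∀ j, map (algebraMap K ℂ) G = P.eqn j)
    (x : PSpace n)
    (hx : ∀ A : MvPolynomial (Fin (n + 1)) K, A ≠ 0 → (∃ m, A.IsHomogeneous m) →
      ¬ VanishesAt (map (algebraMap K ℂ) A) x) :
    ¬ P.HasOrbifoldRationalCurveThrough x := by
  classical
  rintro ⟨f, DC, hf, hneg, a, ha⟩
  obtain ⟨j₀, hj₀, hdeg, hcoeff⟩ := hP
  have hG0 : ∀ z : Fin (n + 1) → ℂ, aeval z G = eval z (P.eqn j₀) := by
    intro z
    rw [← hG j₀, eval_map, aeval_def]
  -- the vector f(a)
  let y : Fin (n + 1) → ℂ := fun i => eval a.rep (f.form i)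
  have hyx : ∀ A : MvPolynomial (Fin (n + 1)) K, A ≠ 0 → (∃ m, A.IsHomogeneous m) →
      aeval y A ≠ 0 := by
    intro A hA hAh h0
    obtain ⟨m, hm⟩ := hAh
    apply hx A hA ⟨m, hm⟩
    unfold VanishesAt
    rw [← ha]
    obtain ⟨u, hu⟩ := Projectivization.exists_smul_eq_mk_rep ℂ y (by
      obtain ⟨i, hi⟩ := f.no_common_zero a.rep a.rep_nonzero
      exact fun h => hi (congrFun h i))
    have h1 : (f.toFun a).rep = (u : ℂ) • y := hu.symm
    rw [h1, eval_smul_of_homog (hm.map _), eval_map, ← aeval_def, h0, mul_zero]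
  obtain ⟨hy0, hind⟩ := algebraicIndependent_ratios y hyx
  obtain ⟨Δ, hΔ0, hΔd, hΔ⟩ := core (K := K) (L := ℂ)
    (fun x hx y => exists_derivation x hx y) (fun δ w => exists_polyDerivation δ w) G
    (by
      intro z hz hz0
      rw [hG0] at hz0
      have hli := P.snc z hz
      have hne := hli.ne_zero (⟨j₀, hz0⟩ : {j : P.J // eval z (P.eqn j) = 0})
      by_contra hcon
      push Not at hcon
      apply hne
      funext i
      have := hcon i
      rw [Pi.zero_apply, ← hG j₀, pderiv_map, eval_map, ← aeval_def]
      exact this)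
    f.degree_pos f.form f.homog f.no_common_zero a.rep hy0 hind
  -- the pulled back equation
  set H := aeval f.form (P.eqn j₀) with hH
  have hHG : aeval f.form G = H := by
    rw [hH, ← hG j₀, aeval_map_algebraMap]
  rw [hHG] at hΔ
  have hHh : H.IsHomogeneous (d * f.degree) := by
    have := (P.homog j₀).aeval f.form f.homog
    rw [hdeg, mul_comm] at this
    exact this
  have hcompat : ∀ b : PLine, VanishesAt (P.eqn j₀) (f.toFun b) ↔ eval b.rep H = 0 := by
    intro b
    let z : Fin (n + 1) → ℂ := fun i => eval b.rep (f.form i)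
    have hz : z ≠ 0 := by
      obtain ⟨i, hi⟩ := f.no_common_zero b.rep b.rep_nonzero
      exact fun h => hi (congrFun h i)
    obtain ⟨u, hu⟩ := Projectivization.exists_smul_eq_mk_rep ℂ z hz
    have h1 : (f.toFun b).rep = (u : ℂ) • z := hu.symm
    have h2 : eval b.rep H = eval z (P.eqn j₀) := by
      rw [hH]
      have : ∀ Q : MvPolynomial (Fin (n + 1)) ℂ, eval b.rep (aeval f.form Q) = eval z Q := by
        intro Q
        induction Q using MvPolynomial.induction_on with
        | C a => simp
        | add p q hp hq => simp only [map_add, hp, hq]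
        | mul_X p i hp => simp only [map_mul, hp, aeval_X, eval_X, z]
      exact this _
    unfold VanishesAt
    rw [h1, eval_smul_of_homog (P.homog j₀), h2]
    constructor
    · intro h
      rcases mul_eq_zero.mp h with h | h
      · exact absurd h (pow_ne_zero _ u.ne_zero)
      · exact h
    · intro h; rw [h, mul_zero]
  have hH0 : H ≠ 0 := by
    obtain ⟨b, hb⟩ := hf.not_subset
    intro h
    apply hb j₀
    rw [hcompat, h, map_zero]
  obtain ⟨c₀, s, hc₀, hs, hHs⟩ := exists_factorisation hHh hH0
  have hmul : ∀ b : PLine, emultiplicity (linForm b.rep) H = s.count b := by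
    intro b
    rw [hHs]
    exact emultiplicity_linForm b c₀ hc₀ s
  have hbound : ∑ b ∈ s.toFinset, (s.count b - 1) ≤ Δ.totalDegree := by
    apply sum_le_totalDegree hΔ0
    intro b hb
    apply hΔ b.rep b.rep_nonzero
    have hpos : 0 < s.count b := Multiset.count_pos.mpr (Multiset.mem_toFinset.mp hb)
    rw [Nat.sub_add_cancel hpos]
    apply pow_dvd_of_le_emultiplicity
    rw [hmul]
  have htotal : ∑ b ∈ s.toFinset, s.count b = d * f.degree := by
    rw [← hs]
    exact Multiset.toFinset_sum_count_eq s
  -- lower bound of D_C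
  have hc_pos : 0 < c := by rw [← hcoeff]; exact P.coeff_pos j₀
  have hc_le : c ≤ 1 := by rw [← hcoeff]; exact P.coeff_le_one j₀
  have h2q : (d : ℚ) < (q + 1) * D := by exact_mod_cast h2
  have hX : (0 : ℚ) < (q + 1) * (D + 2) - d := by
    have : (0 : ℚ) ≤ q := Nat.cast_nonneg q
    nlinarith
  have hw : 0 < 1 - q * (1 - c) := by
    by_contra hcon
    push Not at hcon
    have := mul_nonpos_of_nonpos_of_nonneg hcon hX.le
    linarith
  have hlow : ∀ b ∈ s.toFinset, (1 - q * (1 - c)) * ((q : ℚ) + 1 - (s.count b : ℚ)) ≤ DC b := by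
    intro b hb
    have hpos : 0 < s.count b := Multiset.count_pos.mpr (Multiset.mem_toFinset.mp hb)
    have hv : VanishesAt (P.eqn j₀) (f.toFun b) := by
      rw [hcompat]
      apply eval_eq_zero_of_linForm_dvd
      rw [← dvd_iff_emultiplicity_pos, hmul b]
      exact_mod_cast hpos
    have h3 := hf.mult_le b j₀ hv
    have h4 : f.contact (P.eqn j₀) b = (s.count b : ℕ∞) := hmul b
    rw [h4, hcoeff, ENat.toENNReal_coe] at h3
    have h5 := le_of_mult_le hc_le (hf.coeff_le_one b) (s.count b) h3
    have h6 := hf.coeff_nonneg b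
    by_cases hle : s.count b ≤ q
    · have h7 : (s.count b : ℚ) ≤ q := by exact_mod_cast hle
      nlinarith [mul_nonneg (sub_nonneg.mpr h7) (sub_nonneg.mpr hc1)]
    · have h7 : (q : ℚ) + 1 ≤ s.count b := by
        have : q + 1 ≤ s.count b := by omega
        exact_mod_cast this
      have h8 : (1 - q * (1 - c)) * ((q : ℚ) + 1 - (s.count b : ℚ)) ≤ 0 :=
        mul_nonpos_of_nonneg_of_nonpos hw.le (by linarith)
      linarith
  have hsum1 : ∑ b ∈ s.toFinset, (1 - q * (1 - c)) * ((q : ℚ) + 1 - (s.count b : ℚ)) ≤
      DC.sum fun _ c => c := by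
    calc ∑ b ∈ s.toFinset, (1 - q * (1 - c)) * ((q : ℚ) + 1 - (s.count b : ℚ)) ≤
          ∑ b ∈ s.toFinset, DC b :=
          Finset.sum_le_sum hlow
      _ ≤ ∑ b ∈ s.toFinset ∪ DC.support, DC b :=
          Finset.sum_le_sum_of_subset_of_nonneg Finset.subset_union_left
            (fun b _ _ => hf.coeff_nonneg b)
      _ = ∑ b ∈ DC.support, DC b := by
          symm
          apply Finset.sum_subset Finset.subset_union_right
          intro b _ hb
          exact Finsupp.notMem_support_iff.mp hb
      _ = DC.sum fun _ c => c := rfl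
  -- count
  have he1 : (1 : ℚ) ≤ f.degree := by exact_mod_cast f.degree_pos
  have hdq : (d : ℚ) = n + 1 + D := by exact_mod_cast hd
  have hcount : ((q + 1 : ℚ) * D - d) * f.degree + 2 * (q + 1) ≤
      ∑ b ∈ s.toFinset, ((q : ℚ) + 1 - (s.count b : ℚ)) := by
    have h1 : ∑ b ∈ s.toFinset, (s.count b - 1) + 2 ≤ (n + 1) * f.degree := by omega
    have h2 : (∑ b ∈ s.toFinset, ((s.count b : ℚ) - 1)) + 2 ≤ (n + 1) * f.degree := by
      have h3 : (∑ b ∈ s.toFinset, ((s.count b : ℚ) - 1)) =
          ((∑ b ∈ s.toFinset, (s.count b - 1) : ℕ) : ℚ) := by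
        push_cast
        refine Finset.sum_congr rfl fun b hb => ?_
        have hpos : 1 ≤ s.count b := Multiset.count_pos.mpr (Multiset.mem_toFinset.mp hb)
        rw [Nat.cast_sub hpos]
        simp
      rw [h3]
      exact_mod_cast h1
    have h4 : (∑ b ∈ s.toFinset, (s.count b : ℚ)) = d * f.degree := by
      exact_mod_cast htotal
    have h5 : ∑ b ∈ s.toFinset, ((q : ℚ) + 1 - (s.count b : ℚ)) =
        q * (∑ b ∈ s.toFinset, (s.count b : ℚ)) -
          (q + 1) * ∑ b ∈ s.toFinset, ((s.count b : ℚ) - 1) := by
      rw [Finset.mul_sum, Finset.mul_sum, ← Finset.sum_sub_distrib]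
      refine Finset.sum_congr rfl fun b _ => ?_
      ring
    rw [h5, h4]
    have hq0 : (0 : ℚ) ≤ q := Nat.cast_nonneg q
    have h6 : (q + 1 : ℚ) * ((∑ b ∈ s.toFinset, ((s.count b : ℚ) - 1)) + 2) ≤
        (q + 1) * ((n + 1) * f.degree) := mul_le_mul_of_nonneg_left h2 (by linarith)
    rw [hdq] at *
    nlinarith
  rw [← Finset.mul_sum] at hsum1
  have hcount2 : ((q + 1 : ℚ) * (D + 2) - d) ≤
      ∑ b ∈ s.toFinset, ((q : ℚ) + 1 - (s.count b : ℚ)) := by
    refine le_trans ?_ hcount
    nlinarith
  have hfin : 2 ≤ DC.sum fun _ c => c := by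
    refine le_trans hc0 (le_trans ?_ hsum1)
    exact mul_le_mul_of_nonneg_left hcount2 hw.le
  linarith

/-! ## Existence: the Fermat hypersurface -/

/-- the Fermat polynomial -/
noncomputable def fermat (m d : ℕ) : MvPolynomial (Fin m) ℂ := ∑ i, X i ^ d

theorem fermat_homog (m d : ℕ) : (fermat m d).IsHomogeneous d := by
  apply IsHomogeneous.sum
  intro i _
  simpa using (isHomogeneous_X ℂ i).pow d

theorem pderiv_fermat (m d : ℕ) (i : Fin m) :
    pderiv i (fermat m d) = C (d : ℂ) * X i ^ (d - 1) := by
  classical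
  rw [fermat, map_sum, Finset.sum_eq_single i]
  · rw [pderiv_pow, pderiv_X_self]
    simp
  · intro j _ hj
    rw [pderiv_pow, pderiv_X_of_ne hj]
    simp
  · intro h; exact absurd (Finset.mem_univ _) h

theorem fermat_ne_zero {m d : ℕ} (hm : 0 < m) (hd : 0 < d) : fermat m d ≠ 0 := by
  intro h
  have := pderiv_fermat m d ⟨0, hm⟩
  rw [h, map_zero] at this
  have h2 : (C (d : ℂ) * X (⟨0, hm⟩ : Fin m) ^ (d - 1) : MvPolynomial (Fin m) ℂ) ≠ 0 := by
    apply mul_ne_zero
    · rw [Ne, C_eq_zero]; exact_mod_cast hd.ne'
    · exact pow_ne_zero _ (X_ne_zero _)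
  exact h2 this.symm

theorem fermat_irreducible {n d : ℕ} (hn : 2 ≤ n) (hd : 2 ≤ d) :
    Irreducible (fermat (n + 1) d) := by
  classical
  -- pass to polynomials in the first variable
  rw [← MulEquiv.irreducible_iff (finSuccEquiv ℂ n).toMulEquiv]
  have h1 : (finSuccEquiv ℂ n).toMulEquiv (fermat (n + 1) d) =
      Polynomial.X ^ d + Polynomial.C (fermat n d) := by
    change finSuccEquiv ℂ n (fermat (n + 1) d) = _
    rw [fermat, Fin.sum_univ_succ, map_add, map_pow, finSuccEquiv_X_zero, map_sum]
    congr 1
    rw [fermat, map_sum]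
    refine Finset.sum_congr rfl fun i _ => ?_
    rw [map_pow, finSuccEquiv_X_succ, map_pow]
  rw [h1]
  have hne : fermat n d ≠ 0 := fermat_ne_zero (by omega) (by omega)
  have hnu : ¬ IsUnit (fermat n d) := by
    intro hu
    have h2 := (MvPolynomial.isUnit_iff_totalDegree_of_isReduced.mp hu).2
    rw [(fermat_homog n d).totalDegree hne] at h2
    omega
  obtain ⟨p, hp, hpd⟩ := WfDvdMonoid.exists_irreducible_factor hnu hne
  have hpp : Prime p := hp.prime
  have hp2 : ¬ p ^ 2 ∣ fermat n d := by
    intro h
    have h3 : ∀ i, p ∣ X i := by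
      intro i
      have h4 : p ∣ pderiv i (fermat n d) := by
        obtain ⟨q, hq⟩ := h
        rw [hq, Derivation.leibniz, Derivation.leibniz_pow]
        simp only [smul_eq_mul, nsmul_eq_mul]
        apply dvd_add
        · rw [pow_two, mul_assoc]; exact dvd_mul_right _ _
        · refine Dvd.intro (q * (2 * pderiv i p)) ?_
          simp only [Nat.add_one_sub_one, pow_one]
          push_cast
          ring
      rw [pderiv_fermat] at h4
      have hu : IsUnit (C (d : ℂ) : MvPolynomial (Fin n) ℂ) := by
        apply IsUnit.map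
        rw [isUnit_iff_ne_zero]
        exact_mod_cast (by omega : d ≠ 0)
      exact hpp.dvd_of_dvd_pow ((hu.dvd_mul_left).mp h4)
    have h5 : ∀ i : Fin n, Associated p (X i) := fun i =>
      (hp.associated_of_dvd (X_prime (i := i)).irreducible (h3 i))
    have h6 : Associated (X ⟨0, by omega⟩ : MvPolynomial (Fin n) ℂ) (X ⟨1, by omega⟩) :=
      (h5 _).symm.trans (h5 _)
    have h7 := h6.dvd
    obtain ⟨q, hq⟩ := h7
    have h8 := congrArg (eval (fun i : Fin n => if i = ⟨1, by omega⟩ then (1 : ℂ) else 0)) hq
    simp at h8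
  have hI : (Ideal.span {p}).IsPrime := (Ideal.span_singleton_prime hpp.ne_zero).mpr hpp
  have hdeg : (Polynomial.X ^ d + Polynomial.C (fermat n d)).natDegree = d := by
    rw [Polynomial.natDegree_X_pow_add_C]
  have hmonic : (Polynomial.X ^ d + Polynomial.C (fermat n d)).Monic :=
    Polynomial.monic_X_pow_add_C _ (by omega)
  refine Polynomial.irreducible_of_eisenstein_criterion hI ?_ ?_ ?_ ?_ ?_
  · rw [hmonic.leadingCoeff]
    intro h
    exact hI.ne_top ((Ideal.eq_top_iff_one _).mpr h)
  · intro k hk
    have hkd : k < d := by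
      have := Polynomial.degree_eq_natDegree hmonic.ne_zero
      rw [this, hdeg] at hk
      exact_mod_cast hk
    rw [Polynomial.coeff_add, Polynomial.coeff_X_pow, if_neg (by omega), zero_add,
      Polynomial.coeff_C]
    split_ifs with h0
    · exact Ideal.mem_span_singleton.mpr hpd
    · exact Ideal.zero_mem _
  · rw [Polynomial.degree_eq_natDegree hmonic.ne_zero, hdeg]
    exact_mod_cast (by omega : 0 < d)
  · rw [Polynomial.coeff_add, Polynomial.coeff_X_pow, if_neg (by omega), zero_add,
      Polynomial.coeff_C_zero, Ideal.span_singleton_pow, Ideal.mem_span_singleton]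
    exact hp2
  · exact hmonic.isPrimitive

/-- the orbifold pair `(ℙⁿ, c B)`, with `B` the Fermat hypersurface of degree `d` -/
noncomputable def fermatPair {n d : ℕ} (hn : 2 ≤ n) (hd : 2 ≤ d) (c : ℚ) (hc : 0 < c)
    (hc1 : c ≤ 1) : OrbifoldPair n where
  J := Unit
  fintypeJ := inferInstance
  eqn := fun _ => fermat (n + 1) d
  degree := fun _ => d
  homog := fun _ => fermat_homog _ _
  irred := fun _ => fermat_irreducible hn hd
  distinct := fun i j h => absurd (Subsingleton.elim i j) h
  snc := by
    intro x hx
    have : Subsingleton {j : Unit // eval x (fermat (n + 1) d) = 0} := inferInstance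
    rw [linearIndependent_subsingleton_index_iff]
    intro i h
    apply hx
    funext k
    have h1 := congrFun h k
    simp only [pderiv_fermat, map_mul, eval_C, map_pow, eval_X, Pi.zero_apply, mul_eq_zero,
      Nat.cast_eq_zero] at h1
    rcases h1 with h1 | h1
    · omega
    · exact eq_zero_of_pow_eq_zero h1
  coeff := fun _ => c
  coeff_pos := fun _ => hc
  coeff_le_one := fun _ => hc1

/-! ## The theorem -/

/-- Let `q ≥ 1`, `d = n + 1 + D` and `q (D + 2) < d < (q + 1) D` (for `q = 1`: any `n ≥ 2` and
`d ≥ 2 n + 3`).  Put `X = (q + 1) (D + 2) - d`.  Then `q X / (X - 2) < d / D`, and for all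
rational multiplicities `m` with `q X / (X - 2) ≤ m < d / D` (so `q < m < q + 1`): there are smooth
hypersurfaces `B ⊂ ℙⁿ` of degree `d`, and for each of them, with `c = 1 - 1 / m`, `K + c B` is not
pseudo-effective, `(ℙⁿ, c B)` is not uniruled, and in fact all points lying on orbifold rational
curves are contained in a countable union of hypersurfaces. -/
theorem main (q n D d : ℕ) (hq : 1 ≤ q) (hd : d = n + 1 + D) (h1 : q * (D + 2) < d)
    (h2 : d < (q + 1) * D) :
    ((q : ℚ) * ((q + 1) * (D + 2) - d) / ((q + 1) * (D + 2) - d - 2) < d / D) ∧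
    ∀ m : ℚ, q * ((q + 1) * (D + 2) - d) / ((q + 1) * (D + 2) - d - 2) ≤ m → m < d / D →
      (∃ P : OrbifoldPair n, P.IsSingle d (1 - 1 / m)) ∧
      ∀ P : OrbifoldPair n, P.IsSingle d (1 - 1 / m) →
        ¬ P.IsPseudoEffective ∧ ¬ P.IsUniruled ∧
        ∃ Z : ℕ → MvPolynomial (Fin (n + 1)) ℂ,
          (∀ k, Z k ≠ 0 ∧ ∃ e, (Z k).IsHomogeneous e) ∧
          ∀ x : PSpace n, P.HasOrbifoldRationalCurveThrough x → ∃ k, VanishesAt (Z k) x := by
  classical
  have hqq : (1 : ℚ) ≤ q := by exact_mod_cast hq
  have hdq : (d : ℚ) = n + 1 + D := by exact_mod_cast hd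
  have h1q : (q : ℚ) * (D + 2) < d := by exact_mod_cast h1
  have h2q : (d : ℚ) < (q + 1) * D := by exact_mod_cast h2
  have hD0 : (0 : ℚ) < D := by
    by_contra hcon
    push Not at hcon
    nlinarith [Nat.cast_nonneg (α := ℚ) d]
  have hd0 : (0 : ℚ) < d := by nlinarith
  have hn : 2 ≤ n := by
    by_contra hcon
    have hn1 : n ≤ 1 := by omega
    have h3 : D + 2 ≤ q * (D + 2) := Nat.le_mul_of_pos_left _ hq
    omega
  set X : ℚ := (q + 1) * (D + 2) - d with hXdef
  have hX2 : 0 < X - 2 := by nlinarith
  have hX0 : 0 < X := by linarith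
  have hlow : (q : ℚ) < q * X / (X - 2) := by
    rw [lt_div_iff₀ hX2]
    nlinarith
  have hmid : (q : ℚ) * X / (X - 2) < d / D := by
    rw [div_lt_div_iff₀ hX2 hD0]
    -- `q X D < d (X - 2)`, i.e. `2 q (D - s) < s (D - s)` with `s = d - q D`
    have hs : (0 : ℚ) < (d - q * D) - 2 * q := by linarith
    have hDs : (0 : ℚ) < D - (d - q * D) := by linarith
    have := mul_pos hs hDs
    rw [hXdef]
    nlinarith
  have hup : (d : ℚ) / D < q + 1 := by
    rw [div_lt_iff₀ hD0]
    exact h2q
  refine ⟨hmid, ?_⟩
  intro m hm1 hm2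
  have hmq : (q : ℚ) < m := lt_of_lt_of_le hlow hm1
  have hm0 : 0 < m := by linarith
  have hm1' : 1 < m := by linarith
  have hinv : 0 < 1 / m := by positivity
  have hinv1 : 1 / m < 1 := by rw [div_lt_one hm0]; exact hm1'
  -- translation of the bounds
  have hc2' : (1 - 1 / m) * d < n + 1 := by
    rw [lt_div_iff₀ hD0] at hm2
    have h3 : D < d / m := by rw [lt_div_iff₀ hm0]; linarith
    have h4 : (1 - 1 / m) * d = d - d / m := by ring
    rw [h4, hdq] at *
    linarith
  have hc1 : 1 ≤ ((q : ℚ) + 1) * (1 - (1 - 1 / m)) := by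
    have h3 : m < q + 1 := lt_trans hm2 hup
    have h4 : ((q : ℚ) + 1) * (1 - (1 - 1 / m)) = (q + 1) / m := by ring
    rw [h4, le_div_iff₀ hm0]
    linarith
  have hc0 : 2 ≤ (1 - q * (1 - (1 - 1 / m))) * ((q + 1) * (D + 2) - d) := by
    rw [← hXdef]
    rw [div_le_iff₀ hX2] at hm1
    have h4 : (1 - q * (1 - (1 - 1 / m))) * X = (m * X - q * X) / m := by
      field_simp
      ring
    rw [h4, le_div_iff₀ hm0]
    linarith
  refine ⟨⟨fermatPair hn (by omega : 2 ≤ d) (1 - 1 / m) (by linarith) (by linarith),
      (), fun _ => rfl, rfl, rfl⟩, ?_⟩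
  intro P hP
  generalize hcdef : (1 - 1 / m : ℚ) = c at *
  -- the very general statement
  have hvg : ∃ Z : ℕ → MvPolynomial (Fin (n + 1)) ℂ,
      (∀ k, Z k ≠ 0 ∧ ∃ m, (Z k).IsHomogeneous m) ∧
      ∀ x : PSpace n, P.HasOrbifoldRationalCurveThrough x → ∃ k, VanishesAt (Z k) x := by
    obtain ⟨j₀, hj₀, hdeg, hcoeff⟩ := hP
    obtain ⟨K, hK, hA⟩ := exists_countable_field (fun _ : ℕ => P.eqn j₀)
    obtain ⟨G, hG⟩ := hA 0
    let T : Type := {A : MvPolynomial (Fin (n + 1)) K // A ≠ 0 ∧ ∃ m, A.IsHomogeneous m}
    have hcM : Countable (MvPolynomial (Fin (n + 1)) K) := by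
      rw [← Cardinal.mk_le_aleph0_iff]
      refine MvPolynomial.cardinalMk_le_max.trans ?_
      apply max_le (max_le _ _) le_rfl
      · exact Cardinal.mk_le_aleph0_iff.mpr hK
      · exact Cardinal.mk_le_aleph0_iff.mpr inferInstance
    have hT : Countable T := Subtype.countable
    have hTn : Nonempty T := ⟨⟨MvPolynomial.X 0, X_ne_zero 0, 1, isHomogeneous_X _ _⟩⟩
    obtain ⟨g, hg⟩ := exists_surjective_nat T
    refine ⟨fun k => map (algebraMap K ℂ) (g k).1, fun k => ⟨?_, ?_⟩, ?_⟩
    · rw [Ne, map_eq_zero_iff _ (map_injective _ (algebraMap K ℂ).injective)]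
      exact (g k).2.1
    · obtain ⟨m, hm⟩ := (g k).2.2
      exact ⟨m, hm.map _⟩
    · intro x hx
      by_contra hcon
      push Not at hcon
      refine no_curve P ⟨j₀, hj₀, hdeg, hcoeff⟩ hd h2 hc1 hc0 K G
        (fun j => by rw [hj₀ j]; exact hG) x ?_ hx
      intro A hA hAh
      obtain ⟨k, hk⟩ := hg ⟨A, hA, hAh⟩
      have := hcon k
      rw [hk] at this
      exact this
  refine ⟨?_, ?_, hvg⟩
  · -- not pseudo-effective
    intro hpe
    have hclosed : closure (effectiveDegrees n) ⊆ Set.Ici (0 : ℝ) := by
      apply closure_minimal _ isClosed_Ici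
      rintro q ⟨k, E, m, a, h, rfl⟩
      rw [Set.mem_Ici]
      apply Finset.sum_nonneg
      intro i _
      have := (h i).2.2
      have h2 : (0 : ℝ) ≤ a i := by exact_mod_cast this
      positivity
    have h1 := hclosed hpe
    obtain ⟨j₀, hj₀, hdeg, hcoeff⟩ := hP
    have h2 : P.logCanonicalDegree = -((n : ℝ) + 1) + (c : ℝ) * d := by
      unfold OrbifoldPair.logCanonicalDegree
      congr 1
      rw [Finset.sum_eq_single j₀]
      · rw [hdeg, hcoeff]
      · intro j _ hj; exact absurd (hj₀ j) hj
      · intro h; exact absurd (Finset.mem_univ _) h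
    rw [Set.mem_Ici, h2] at h1
    have h3 : (c : ℝ) * d < n + 1 := by exact_mod_cast hc2'
    linarith
  · -- not uniruled
    rintro ⟨U, ⟨S, hS, rfl⟩, ⟨x₀, hx₀⟩, hU⟩
    obtain ⟨B, hB, hBx⟩ := hx₀
    obtain ⟨mB, hmB⟩ := hS B hB
    obtain ⟨Z, hZ, hZx⟩ := hvg
    have hB0 : B ≠ 0 := by
      rintro rfl
      apply hBx
      unfold VanishesAt
      rw [map_zero]
    let Z' : ℕ → MvPolynomial (Fin (n + 1)) ℂ := fun k =>
      match k with
      | 0 => B
      | 1 => MvPolynomial.X 0
      | (k + 2) => Z k
    obtain ⟨y, hy⟩ := exists_avoid Z' (by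
      intro k
      match k with
      | 0 => exact hB0
      | 1 => exact X_ne_zero 0
      | (k + 2) => exact (hZ k).1)
    have hy0 : y ≠ 0 := by
      intro h
      have := hy 1
      simp only [Z', eval_X, h, Pi.zero_apply, ne_eq, not_true_eq_false] at this
    let x : PSpace n := Projectivization.mk ℂ y hy0
    obtain ⟨u, hu⟩ := Projectivization.exists_smul_eq_mk_rep ℂ y hy0
    have hrep : x.rep = (u : ℂ) • y := hu.symm
    have hxU : ¬ VanishesAt B x := by
      unfold VanishesAt
      rw [hrep, eval_smul_of_homog hmB]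
      exact mul_ne_zero (pow_ne_zero _ u.ne_zero) (hy 0)
    obtain ⟨k, hk⟩ := hZx x (hU x ⟨B, hB, hxU⟩)
    obtain ⟨m, hm⟩ := (hZ k).2
    unfold VanishesAt at hk
    rw [hrep, eval_smul_of_homog hm] at hk
    exact mul_ne_zero (pow_ne_zero _ u.ne_zero) (hy (k + 2)) hk

end Pool.Agent.Lib.MP_a78b9e_ag
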